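import Pool.Agent.H94.RTB.Targets3
import Pool.Agent.H35.RTB.DEC

/-!
Row R_ATM of ssp_modules: removing one atom of the spectral measure by subtracting a bounded
eigenfunction (with the lemmas of helper35 for row R_DEC).
-/

set_option autoImplicit false

namespace Pool.Agent.H94.RTB.ATM

open Pool.Agent.H94.RTB Pool.Agent.H35.RTB MeasureTheory Filter Topology Finset
open scoped ComplexConjugate NNReal

universe v

/-- the case of the bound one -/
theorem atm_one (h3 : T_MEG.{v}) (Ω : Type v) [MeasurableSpace Ω] (m : Measure Ω)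
    [IsProbabilityMeasure m] (S : Ω ≃ᵐ Ω) (hS : MeasurePreserving S m m) (H : Ω → ℂ)
    (hH : Measurable H) (hb : ∀ ω, ‖H ω‖ ≤ 1) (θ : UnitAddCircle) (ν : Measure UnitAddCircle)
    [IsFiniteMeasure ν] (hν0 : ∀ n : ℕ, gam m S H n = ∫ x, fourier (n : ℤ) x ∂ν) :
    ∃ φ : Ω → ℂ, Measurable φ ∧ (∀ ω, ‖φ ω‖ ≤ 1) ∧
      (∀ᵐ ω ∂m, φ (S ω) = fourier 1 θ * φ ω) ∧
      ∀ n : ℕ, gam m S (fun ω => H ω - φ ω) n = ∫ x, fourier (n : ℤ) x ∂(ν.restrict {θ}ᶜ) := by
  obtain ⟨φ, hφm, hφb, hφe, hφl⟩ := h3 Ω m S hS H hH hb (fourier 1 θ) (fourier_norm 1 θ)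
  refine ⟨φ, hφm, hφb, hφe, fun d => ?_⟩
  have hν : ∀ n : ℤ, ∫ x, fourier n x ∂ν = gamZ m S H n := by
    intro n
    unfold gamZ
    split_ifs with h
    · rw [hν0, Int.toNat_of_nonneg h]
    · rw [hν0, ← integral_conj, Int.toNat_of_nonneg (by omega)]
      refine integral_congr_ae (Eventually.of_forall fun x => ?_)
      show (fourier n x : ℂ) = conj (fourier (-n) x : ℂ)
      rw [conj_fourier, neg_neg]
  have fa : ∀ (d : ℕ), ∫ ω, H (S^[d] ω) * conj (φ ω) ∂m =
      (fourier 1 θ : ℂ) ^ d * (ν.real {θ} : ℂ) := fun d =>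
    pair_eig hS hH hb ν hν θ hφm hφb hφl d
  have hae : ∀ (d : ℕ), ∀ᵐ ω ∂m, φ (S^[d] ω) = (fourier 1 θ : ℂ) ^ d * φ ω := fun d =>
    ae_iter hS hφe d
  have e0 := fa 0
  rw [pow_zero, one_mul] at e0
  have e1 : ∫ ω, φ ω * conj (H ω) ∂m = (ν.real {θ} : ℂ) := by
    have e2 : ∫ ω, φ ω * conj (H ω) ∂m = conj (∫ ω, H (S^[0] ω) * conj (φ ω) ∂m) := by
      rw [← integral_conj]
      refine integral_congr_ae (Eventually.of_forall fun ω => ?_)
      show φ ω * conj (H ω) = conj (H ω * conj (φ ω))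
      rw [map_mul, Complex.conj_conj]
      ring
    rw [e2, e0, Complex.conj_ofReal]
  have fb : ∀ (d : ℕ), ∫ ω, φ (S^[d] ω) * conj (H ω) ∂m =
      (fourier 1 θ : ℂ) ^ d * (ν.real {θ} : ℂ) := by
    intro d
    rw [← e1, ← integral_const_mul]
    refine integral_congr_ae ?_
    filter_upwards [hae d] with ω a
    rw [a]
    ring
  have fc0 : ∫ ω, φ ω * conj (φ ω) ∂m = (ν.real {θ} : ℂ) := by
    set ζ : ℂ := fourier 1 θ with hζ
    have hζ1 : ‖ζ‖ = 1 := fourier_norm 1 _
    have hc : ∀ n : ℕ, ‖(conj ζ) ^ n‖ ≤ 1 := fun n => by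
      rw [norm_pow, RCLike.norm_conj, hζ1, one_pow]
    have L1 := pair_lim (g := φ) (fun N => av_meas (S := S) hH (fun n => (conj ζ) ^ n) N)
      hφm hφm (fun N ω => av_bd (S := S) hb hc N ω) hφb hφb hφl
    have e1 : ∀ N : ℕ, 1 ≤ N →
        ∫ ω, φ ω * conj (Av S H (fun n => (conj ζ) ^ n) N ω) ∂m = (ν.real {θ} : ℂ) := by
      intro N hN
      rw [pair_av (S := S) hH hb hφm hφb]
      have e2 : ∀ n ∈ Icc 1 N, conj ((conj ζ) ^ n) *
          ∫ ω, φ ω * conj (H (S^[n] ω)) ∂m = (ν.real {θ} : ℂ) := by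
        intro n _
        have e3 : ∫ ω, φ ω * conj (H (S^[n] ω)) ∂m =
            conj (∫ ω, H (S^[n] ω) * conj (φ ω) ∂m) := by
          rw [← integral_conj]
          refine integral_congr_ae (Eventually.of_forall fun ω => ?_)
          show φ ω * conj (H (S^[n] ω)) = conj (H (S^[n] ω) * conj (φ ω))
          rw [map_mul, Complex.conj_conj]
          ring
        have e4 : ζ * conj ζ = 1 := by
          rw [Complex.mul_conj, Complex.normSq_eq_norm_sq, hζ1]
          norm_num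
        rw [e3, fa, map_mul, Complex.conj_ofReal, map_pow, map_pow, Complex.conj_conj,
          ← mul_assoc, ← mul_pow, e4, one_pow, one_mul]
      rw [Finset.sum_congr rfl e2, Finset.sum_const, Nat.card_Icc, add_tsub_cancel_right,
        nsmul_eq_mul]
      have : (N : ℂ) ≠ 0 := by exact_mod_cast (by omega : N ≠ 0)
      field_simp
    have L2 : Tendsto (fun N : ℕ => ∫ ω, φ ω *
        conj (Av S H (fun n => (conj ζ) ^ n) N ω) ∂m) atTop (𝓝 (ν.real {θ} : ℂ)) := by
      refine tendsto_const_nhds.congr' ?_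
      filter_upwards [eventually_ge_atTop 1] with N hN
      exact (e1 N hN).symm
    exact tendsto_nhds_unique L1 L2
  have fc : ∫ ω, φ (S^[d] ω) * conj (φ ω) ∂m = (fourier 1 θ : ℂ) ^ d * (ν.real {θ} : ℂ) := by
    rw [← fc0, ← integral_const_mul]
    refine integral_congr_ae ?_
    filter_upwards [hae d] with ω a
    rw [a]
    ring
  have iHH : Integrable (fun ω => H (S^[d] ω) * conj (H ω)) m :=
    int_mul (hH.comp (meas_iter d)) hH (fun ω => hb _) hb
  have iHφ : Integrable (fun ω => H (S^[d] ω) * conj (φ ω)) m :=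
    int_mul (hH.comp (meas_iter d)) hφm (fun ω => hb _) hφb
  have iφH : Integrable (fun ω => φ (S^[d] ω) * conj (H ω)) m :=
    int_mul (hφm.comp (meas_iter d)) hH (fun ω => hφb _) hb
  have iφφ : Integrable (fun ω => φ (S^[d] ω) * conj (φ ω)) m :=
    int_mul (hφm.comp (meas_iter d)) hφm (fun ω => hφb _) hφb
  have e2 : gam m S (fun ω => H ω - φ ω) d =
      ∫ ω, H (S^[d] ω) * conj (H ω) ∂m - (fourier 1 θ : ℂ) ^ d * (ν.real {θ} : ℂ) := by
    unfold gam
    have e3 : (fun ω => (H (S^[d] ω) - φ (S^[d] ω)) * conj (H ω - φ ω)) =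
        fun ω => (H (S^[d] ω) * conj (H ω) - H (S^[d] ω) * conj (φ ω)) -
          (φ (S^[d] ω) * conj (H ω) - φ (S^[d] ω) * conj (φ ω)) := by
      funext ω
      rw [map_sub]
      ring
    have i4 : Integrable (fun ω => H (S^[d] ω) * conj (H ω) - H (S^[d] ω) * conj (φ ω)) m :=
      iHH.sub iHφ
    have i5 : Integrable (fun ω => φ (S^[d] ω) * conj (H ω) - φ (S^[d] ω) * conj (φ ω)) m :=
      iφH.sub iφφ
    rw [e3, integral_sub i4 i5, integral_sub iHH iHφ, integral_sub iφH iφφ, fa, fb, fc]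
    ring
  have hfi : Integrable (fun y => (fourier (d : ℤ) y : ℂ)) ν :=
    int_bd (fourier (d : ℤ)).continuous.measurable (C := 1) fun y => (fourier_norm _ y).le
  have e4 : ∫ ω, H (S^[d] ω) * conj (H ω) ∂m = ∫ y, fourier (d : ℤ) y ∂ν := hν0 d
  have e5 : ∫ y in ({θ} : Set UnitAddCircle), (fourier (d : ℤ) y : ℂ) ∂ν =
      (fourier 1 θ : ℂ) ^ d * (ν.real {θ} : ℂ) := by
    rw [integral_singleton, Complex.real_smul, fourier_pow]
    ring
  rw [e2, e4, ← e5, ← integral_add_compl (measurableSet_singleton θ) hfi]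
  ring

theorem pf_ATM (h : T_MEG.{v}) : T_ATM.{v} := by
  intro Ω _ m _ S hS H C hH hb θ ν _ hν
  have hΩ : Nonempty Ω := by
    by_contra hne
    rw [not_nonempty_iff] at hne
    have := measure_univ (μ := m)
    rw [Set.eq_empty_of_isEmpty (Set.univ : Set Ω), measure_empty] at this
    exact zero_ne_one this
  have hC0 : 0 ≤ C := (norm_nonneg _).trans (hb hΩ.some)
  rcases hC0.eq_or_lt with hC | hC
  · -- the function is zero
    have hH0 : ∀ ω, H ω = 0 := fun ω => norm_le_zero_iff.1 (by rw [hC]; exact hb ω)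
    have hν1 : ν = 0 := by
      have h1 := hν 0
      have h2 : gam m S H 0 = 0 := by
        unfold gam
        simp [hH0]
      rw [h2] at h1
      have h3 : ∫ x, (fourier ((0 : ℕ) : ℤ) x : ℂ) ∂ν = ((ν.real Set.univ : ℝ) : ℂ) := by
        simp
      rw [h3] at h1
      have h4 : ν.real Set.univ = 0 := by exact_mod_cast h1.symm
      have h5 := (measureReal_eq_zero_iff (measure_ne_top ν _)).1 h4
      exact Measure.measure_univ_eq_zero.1 h5
    refine ⟨fun _ => 0, measurable_const, fun ω => by simpa using hC0, ?_, fun n => ?_⟩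
    · exact Eventually.of_forall fun ω => by simp
    · unfold gam
      simp [hH0, hν1]
  · have hCC : (C : ℂ) ≠ 0 := by exact_mod_cast hC.ne'
    set c : ℝ≥0 := ⟨(C⁻¹) ^ 2, by positivity⟩ with hc
    have hb1 : ∀ ω, ‖H ω / C‖ ≤ 1 := fun ω => by
      rw [norm_div, Complex.norm_real, Real.norm_eq_abs, abs_of_pos hC, div_le_one hC]
      exact hb ω
    have hgs : ∀ (K : Ω → ℂ) (n : ℕ), gam m S (fun ω => K ω / C) n = ((C : ℂ)⁻¹) ^ 2 *
        gam m S K n := by
      intro K n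
      unfold gam
      rw [← integral_const_mul]
      refine integral_congr_ae (Eventually.of_forall fun ω => ?_)
      show K (S^[n] ω) / C * conj (K ω / C) = ((C : ℂ)⁻¹) ^ 2 * (K (S^[n] ω) * conj (K ω))
      rw [map_div₀, Complex.conj_ofReal]
      field_simp
    have hsm : ∀ (ρ : Measure UnitAddCircle) (n : ℕ), ∫ x, (fourier (n : ℤ) x : ℂ) ∂(c • ρ) =
        ((C : ℂ)⁻¹) ^ 2 * ∫ x, (fourier (n : ℤ) x : ℂ) ∂ρ := by
      intro ρ n
      rw [integral_smul_nnreal_measure, NNReal.smul_def, Complex.real_smul]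
      congr 1
      show (((C⁻¹) ^ 2 : ℝ) : ℂ) = ((C : ℂ)⁻¹) ^ 2
      push_cast
      rfl
    obtain ⟨φ, h1, h2, h3, h4⟩ := atm_one h Ω m S hS (fun ω => H ω / C) (hH.div_const _) hb1 θ
      (c • ν) (fun n => by rw [hgs, hν, hsm])
    refine ⟨fun ω => φ ω * C, h1.mul_const _, fun ω => ?_, ?_, fun n => ?_⟩
    · rw [norm_mul, Complex.norm_real, Real.norm_eq_abs, abs_of_pos hC]
      exact mul_le_of_le_one_left hC.le (h2 ω)
    · filter_upwards [h3] with ω hω
      rw [hω]
      ring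
    · have h5 := h4 n
      rw [Measure.restrict_smul, hsm] at h5
      have h6 : (fun ω => H ω / C - φ ω) = fun ω => (H ω - φ ω * C) / C := by
        funext ω
        field_simp
      rw [h6, hgs] at h5
      exact mul_left_cancel₀ (pow_ne_zero 2 (inv_ne_zero hCC)) h5

end Pool.Agent.H94.RTB.ATM
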