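import Pool.Agent.H94.RTB.Targets

/-!
Row R_HER of ssp_modules: the theorem of Herglotz for complex positive definite sequences (after
`Pool/Agent/H55/AG/VHG.lean`, the real even case).
-/

set_option autoImplicit false

open MeasureTheory Filter Topology Finset AddCircle
open scoped ComplexConjugate

namespace Pool.Agent.H94.RTB.HG

open Pool.Agent.H94.RTB

/-- the kernel -/
noncomputable def Gk (r : ℤ → ℂ) (N : ℕ) (x : UnitAddCircle) : ℂ :=
  ∑ i ∈ Finset.Ico (0 : ℤ) N, ∑ j ∈ Finset.Ico (0 : ℤ) N, r (i - j) * fourier (-(i - j)) x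

theorem Gk_real {r : ℤ → ℂ} (hr : PD r) (N : ℕ) (x : UnitAddCircle) :
    ∃ t : ℝ, 0 ≤ t ∧ Gk r N x = (t : ℂ) := by
  obtain ⟨t, ht, h⟩ := hr (Finset.Ico (0 : ℤ) N) fun i => (fourier (-i) x : ℂ)
  refine ⟨t, ht, ?_⟩
  rw [← h]
  unfold Gk
  refine Finset.sum_congr rfl fun i _ => Finset.sum_congr rfl fun j _ => ?_
  have e : (fourier (-(i - j)) x : ℂ) = fourier (-i) x * conj (fourier (-j) x : ℂ) := by
    rw [← fourier_neg, ← fourier_add]
    congr 2
    ring
  rw [e]
  ring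

theorem Gk_cont (r : ℤ → ℂ) (N : ℕ) : Continuous (Gk r N) := by
  unfold Gk
  exact continuous_finsetSum _ fun i _ => continuous_finsetSum _ fun j _ =>
    continuous_const.mul (fourier (-(i - j))).continuous

/-- the density -/
noncomputable def rho (r : ℤ → ℂ) (N : ℕ) (x : UnitAddCircle) : ℝ := (Gk r N x).re / N

theorem rho_cont (r : ℤ → ℂ) (N : ℕ) : Continuous (rho r N) :=
  (Complex.continuous_re.comp (Gk_cont r N)).div_const _

theorem rho_nonneg {r : ℤ → ℂ} (hr : PD r) (N : ℕ) (x : UnitAddCircle) : 0 ≤ rho r N x := by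
  obtain ⟨t, ht, h⟩ := Gk_real hr N x
  unfold rho
  rw [h, Complex.ofReal_re]
  exact div_nonneg ht (Nat.cast_nonneg N)

theorem rho_coe {r : ℤ → ℂ} (hr : PD r) (N : ℕ) (x : UnitAddCircle) :
    ((rho r N x : ℝ) : ℂ) = Gk r N x / N := by
  obtain ⟨t, ht, h⟩ := Gk_real hr N x
  unfold rho
  rw [h, Complex.ofReal_re]
  push_cast
  rfl

theorem int_cont {f : UnitAddCircle → ℂ} (hf : Continuous f) :
    Integrable f (haarAddCircle (T := (1 : ℝ))) :=
  hf.integrable_of_hasCompactSupport (HasCompactSupport.of_compactSpace f)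

theorem int_fourier (m : ℤ) : ∫ x, (fourier m x : ℂ) ∂(haarAddCircle (T := (1 : ℝ))) =
    if m = 0 then 1 else 0 := by
  split_ifs with h
  · subst h
    simp
  · exact integral_eq_zero_of_add_right_eq_neg (μ := haarAddCircle)
      (fourier_add_half_inv_index h one_pos)

/-- the number of pairs -/
noncomputable def cnt (N : ℕ) (n : ℤ) : ℕ :=
  ((Finset.Ico (0 : ℤ) N).filter fun i => i + n ∈ Finset.Ico (0 : ℤ) N).card

theorem int_Gk (r : ℤ → ℂ) (N : ℕ) (n : ℤ) :
    ∫ x, Gk r N x * (fourier n x : ℂ) ∂(haarAddCircle (T := (1 : ℝ))) = r n * cnt N (-n) := by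
  unfold Gk
  have e1 : ∀ x : UnitAddCircle,
      (∑ i ∈ Finset.Ico (0 : ℤ) N, ∑ j ∈ Finset.Ico (0 : ℤ) N,
        r (i - j) * fourier (-(i - j)) x) * (fourier n x : ℂ) =
      ∑ i ∈ Finset.Ico (0 : ℤ) N, ∑ j ∈ Finset.Ico (0 : ℤ) N,
        r (i - j) * (fourier (-(i - j) + n) x : ℂ) := by
    intro x
    rw [Finset.sum_mul]
    refine Finset.sum_congr rfl fun i _ => ?_
    rw [Finset.sum_mul]
    refine Finset.sum_congr rfl fun j _ => ?_
    rw [fourier_add, mul_assoc]
  simp_rw [e1]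
  have hi : ∀ i j : ℤ, Integrable (fun x : UnitAddCircle =>
      r (i - j) * (fourier (-(i - j) + n) x : ℂ)) (haarAddCircle (T := (1 : ℝ))) :=
    fun i j => int_cont (continuous_const.mul (fourier _).continuous)
  rw [integral_finsetSum _ fun i _ => integrable_finsetSum _ fun j _ => hi i j]
  have e2 : ∀ i ∈ Finset.Ico (0 : ℤ) N, ∫ x, ∑ j ∈ Finset.Ico (0 : ℤ) N,
      r (i - j) * (fourier (-(i - j) + n) x : ℂ) ∂(haarAddCircle (T := (1 : ℝ))) =
      if i + -n ∈ Finset.Ico (0 : ℤ) N then r n else 0 := by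
    intro i _
    rw [integral_finsetSum _ fun j _ => hi i j]
    have e3 : ∀ j ∈ Finset.Ico (0 : ℤ) N, ∫ x, r (i - j) * (fourier (-(i - j) + n) x : ℂ)
        ∂(haarAddCircle (T := (1 : ℝ))) = if i + -n = j then r n else 0 := by
      intro j _
      rw [integral_const_mul, int_fourier]
      by_cases h : i + -n = j
      · rw [if_pos h, if_pos (by omega), mul_one]
        congr 1
        omega
      · rw [if_neg h, if_neg (by omega), mul_zero]
    rw [Finset.sum_congr rfl e3, Finset.sum_ite_eq]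
  rw [Finset.sum_congr rfl e2, ← Finset.sum_filter, Finset.sum_const, nsmul_eq_mul, mul_comm]
  rfl

theorem cnt_le (N : ℕ) (n : ℤ) : cnt N n ≤ N := by
  unfold cnt
  calc _ ≤ (Finset.Ico (0 : ℤ) N).card := Finset.card_filter_le _ _
    _ = N := by simp

theorem le_cnt (N : ℕ) (n : ℤ) : N ≤ cnt N n + 2 * n.natAbs := by
  unfold cnt
  have h1 := Finset.card_filter_add_card_filter_not (s := Finset.Ico (0 : ℤ) N)
    (fun i => i + n ∈ Finset.Ico (0 : ℤ) N)
  have h2 : ((Finset.Ico (0 : ℤ) N).filter fun i => ¬ (i + n ∈ Finset.Ico (0 : ℤ) N)) ⊆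
      Finset.Ico (0 : ℤ) n.natAbs ∪ Finset.Ico ((N : ℤ) - n.natAbs) N := by
    intro i hi
    rw [Finset.mem_filter, Finset.mem_Ico, Finset.mem_Ico] at hi
    rw [Finset.mem_union, Finset.mem_Ico, Finset.mem_Ico]
    omega
  have h3 := (Finset.card_le_card h2).trans (Finset.card_union_le _ _)
  rw [Int.card_Ico, Int.card_Ico] at h3
  have h4 : (Finset.Ico (0 : ℤ) N).card = N := by simp
  rw [h4] at h1
  omega

theorem cnt_lim (n : ℤ) : Tendsto (fun N : ℕ => (cnt N n : ℝ) / N) atTop (𝓝 1) := by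
  have h1 : Tendsto (fun N : ℕ => 1 - (2 * n.natAbs : ℝ) / N) atTop (𝓝 1) := by
    have := (tendsto_const_div_atTop_nhds_zero_nat (2 * n.natAbs : ℝ)).const_sub 1
    rwa [sub_zero] at this
  refine tendsto_of_tendsto_of_tendsto_of_le_of_le' h1 tendsto_const_nhds ?_ ?_
  · filter_upwards [eventually_gt_atTop 0] with N hN
    have hN' : (0 : ℝ) < N := by exact_mod_cast hN
    rw [sub_le_iff_le_add, ← add_div, le_div_iff₀ hN', one_mul]
    exact_mod_cast le_cnt N n
  · filter_upwards [eventually_gt_atTop 0] with N hN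
    have hN' : (0 : ℝ) < N := by exact_mod_cast hN
    rw [div_le_one hN']
    exact_mod_cast cnt_le N n

/-- the approximations -/
noncomputable def Pm (r : ℤ → ℂ) (N : ℕ) : Measure UnitAddCircle :=
  (haarAddCircle (T := (1 : ℝ))).withDensity fun x => ENNReal.ofReal (rho r N x)

theorem int_Pm {r : ℤ → ℂ} (hr : PD r) (N : ℕ) (n : ℤ) :
    ∫ x, (fourier n x : ℂ) ∂(Pm r N) = r n * (((cnt N (-n) : ℝ) / N : ℝ) : ℂ) := by
  unfold Pm
  rw [integral_withDensity_eq_integral_toReal_smul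
    ((rho_cont r N).measurable.ennreal_ofReal) (Eventually.of_forall fun x =>
      ENNReal.ofReal_lt_top)]
  have e : ∀ x : UnitAddCircle, (ENNReal.ofReal (rho r N x)).toReal • (fourier n x : ℂ) =
      (Gk r N x * (fourier n x : ℂ)) * (1 / (N : ℂ)) := by
    intro x
    rw [ENNReal.toReal_ofReal (rho_nonneg hr N x), Complex.real_smul, rho_coe hr]
    ring
  simp_rw [e]
  rw [integral_mul_const, int_Gk]
  push_cast
  ring

theorem r0_real {r : ℤ → ℂ} (hr : PD r) : ∃ t : ℝ, 0 ≤ t ∧ r 0 = (t : ℂ) := by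
  obtain ⟨t, ht, h⟩ := hr {0} fun _ => 1
  refine ⟨t, ht, ?_⟩
  simpa using h

theorem int_rho {r : ℤ → ℂ} (hr : PD r) {t : ℝ} (ht : r 0 = (t : ℂ)) (N : ℕ) :
    ∫ x, rho r N x ∂(haarAddCircle (T := (1 : ℝ))) = t * ((cnt N 0 : ℝ) / N) := by
  have h := int_Gk r N 0
  have h2 : ((∫ x, rho r N x ∂(haarAddCircle (T := (1 : ℝ))) : ℝ) : ℂ) =
      ((t * ((cnt N 0 : ℝ) / N) : ℝ) : ℂ) := by
    rw [← integral_complex_ofReal]
    have e : ∀ x : UnitAddCircle, ((rho r N x : ℝ) : ℂ) =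
        (Gk r N x * (fourier 0 x : ℂ)) * (1 / (N : ℂ)) := by
      intro x
      rw [rho_coe hr, fourier_zero]
      ring
    simp_rw [e]
    rw [integral_mul_const, h, ht, neg_zero]
    push_cast
    ring
  exact_mod_cast h2

theorem Pm_univ {r : ℤ → ℂ} (hr : PD r) {t : ℝ} (ht0 : 0 ≤ t) (ht : r 0 = (t : ℂ)) (N : ℕ) :
    Pm r N Set.univ ≤ ENNReal.ofReal t := by
  unfold Pm
  rw [withDensity_apply _ MeasurableSet.univ, Measure.restrict_univ,
    ← ofReal_integral_eq_lintegral_ofReal]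
  · refine ENNReal.ofReal_le_ofReal ?_
    rw [int_rho hr ht]
    refine mul_le_of_le_one_right ht0 ?_
    refine div_le_one_of_le₀ ?_ (Nat.cast_nonneg N)
    exact_mod_cast cnt_le N 0
  · exact (rho_cont r N).integrable_of_hasCompactSupport (HasCompactSupport.of_compactSpace _)
  · exact Eventually.of_forall fun x => rho_nonneg hr N x

/-- the theorem of Herglotz -/
theorem pf_HER : T_HER := by
  intro r hr
  obtain ⟨t, ht0, ht⟩ := r0_real hr
  have hfin : ∀ N, IsFiniteMeasure (Pm r N) := fun N =>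
    ⟨(Pm_univ hr ht0 ht N).trans_lt ENNReal.ofReal_lt_top⟩
  set P : ℕ → FiniteMeasure UnitAddCircle := fun N => ⟨Pm r N, hfin N⟩ with hP
  have hK := isCompact_setOfPred_finiteMeasure_le_of_compactSpace UnitAddCircle
    (Real.toNNReal t)
  have hmem : ∀ N, (P N).mass ≤ Real.toNNReal t := by
    intro N
    have h := Pm_univ hr ht0 ht N
    have h2 : ((P N).mass : ENNReal) ≤ ((Real.toNNReal t : NNReal) : ENNReal) := by
      rw [FiniteMeasure.ennreal_mass]
      exact h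
    exact_mod_cast h2
  obtain ⟨σ, _, hσ⟩ := isCompact_iff_ultrafilter_le_nhds'.1 hK ((hyperfilter ℕ).map P)
    (Ultrafilter.mem_map.mpr (Filter.univ_mem' hmem))
  have hσ' : Tendsto P (hyperfilter ℕ : Filter ℕ) (𝓝 σ) := hσ
  refine ⟨(σ : Measure UnitAddCircle), inferInstance, fun n => ?_⟩
  have h1 := (FiniteMeasure.tendsto_iff_forall_integral_rclike_tendsto ℂ).1 hσ'
    (BoundedContinuousFunction.mkOfCompact (fourier n))
  have h2 : Tendsto (fun N : ℕ => r n * (((cnt N (-n) : ℝ) / N : ℝ) : ℂ))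
      (hyperfilter ℕ : Filter ℕ) (𝓝 (r n)) := by
    have h3 : Tendsto (fun N : ℕ => (((cnt N (-n) : ℝ) / N : ℝ) : ℂ)) atTop
        (𝓝 ((1 : ℝ) : ℂ)) :=
      (Complex.continuous_ofReal.tendsto _).comp (cnt_lim (-n))
    have h4 := (h3.mono_left Nat.hyperfilter_le_atTop).const_mul (r n)
    simpa using h4
  refine tendsto_nhds_unique h1 ?_
  refine h2.congr fun N => ?_
  rw [← int_Pm hr N n]
  rfl

end Pool.Agent.H94.RTB.HG
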