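import Pool.Agent.H94.RTB.Tools
import Pool.Agent.H35.RTB.DEC

/-!
Row R_MEG of ssp_modules: the mean ergodic theorem twisted by a character.
-/

set_option autoImplicit false

namespace Pool.Agent.H94.RTB.MEG

open Pool.Agent.H94.RTB Pool.Agent.H35.RTB MeasureTheory Filter Topology Finset
open scoped ComplexConjugate NNReal

universe v

/-- the averages at the image point -/
theorem Av_shift {Ω : Type v} (S : Ω → Ω) (H : Ω → ℂ) (hb : ∀ ω, ‖H ω‖ ≤ 1) {ζ : ℂ}
    (hζ : ‖ζ‖ = 1) (N : ℕ) (ω : Ω) :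
    ‖Av S H (fun n => (conj ζ) ^ n) N (S ω) - ζ * Av S H (fun n => (conj ζ) ^ n) N ω‖ ≤ 2 / N := by
  have hc : ∀ n : ℕ, ‖(conj ζ) ^ n‖ = 1 := fun n => by
    rw [norm_pow, RCLike.norm_conj, hζ, one_pow]
  have hz : ζ * conj ζ = 1 := by
    rw [Complex.mul_conj, Complex.normSq_eq_norm_sq, hζ]
    norm_num
  set g : ℕ → ℂ := fun n => (conj ζ) ^ n * H (S^[n] ω) with hg
  have e1 : ∀ n : ℕ, (conj ζ) ^ n * H (S^[n] (S ω)) = ζ * g (n + 1) := by
    intro n
    simp only [hg]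
    rw [Function.iterate_succ_apply, pow_succ]
    have : ζ * ((conj ζ) ^ n * conj ζ * H (S^[n] (S ω))) =
        (ζ * conj ζ) * ((conj ζ) ^ n * H (S^[n] (S ω))) := by ring
    rw [this, hz, one_mul]
  have e2 : ∑ n ∈ Icc 1 N, g (n + 1) = ∑ n ∈ Icc 1 N, g n + g (N + 1) - g 1 := by
    induction N with
    | zero => simp
    | succ N ih =>
      rw [Finset.sum_Icc_succ_top (by omega), Finset.sum_Icc_succ_top (by omega), ih]
      ring
  unfold Av
  have e3 : ∑ n ∈ Icc 1 N, (conj ζ) ^ n * H (S^[n] (S ω)) =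
      ζ * (∑ n ∈ Icc 1 N, g n + g (N + 1) - g 1) := by
    rw [← e2, Finset.mul_sum]
    exact Finset.sum_congr rfl fun n _ => e1 n
  have e4 : (∑ n ∈ Icc 1 N, (conj ζ) ^ n * H (S^[n] (S ω))) / (N : ℂ) -
      ζ * ((∑ n ∈ Icc 1 N, (conj ζ) ^ n * H (S^[n] ω)) / (N : ℂ)) =
      ζ * (g (N + 1) - g 1) / N := by
    rw [e3]
    simp only [hg]
    ring
  rw [e4, norm_div, norm_mul, hζ, one_mul, Complex.norm_natCast]
  refine div_le_div_of_nonneg_right ?_ (Nat.cast_nonneg _)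
  have hgn : ∀ n, ‖g n‖ ≤ 1 := fun n => by
    simp only [hg]
    rw [norm_mul, hc, one_mul]
    exact hb _
  have := norm_sub_le (g (N + 1)) (g 1)
  linarith [hgn (N + 1), hgn 1]

theorem pf_MEG (h1 : T_EIG.{v}) : T_MEG.{v} := by
  intro Ω _ m _ S hS H hH hb ζ hζ
  have hc : ∀ n : ℕ, ‖(conj ζ) ^ n‖ ≤ 1 := fun n => by
    rw [norm_pow, RCLike.norm_conj, hζ, one_pow]
  set A : ℕ → Ω → ℂ := fun N ω => Av S H (fun n => (conj ζ) ^ n) N ω with hA
  have hAm : ∀ N, Measurable (A N) := fun N => Av_meas S.measurable hH _ N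
  have hAb : ∀ N ω, ‖A N ω‖ ≤ 1 := fun N ω => by
    have := Av_norm_le (T := (S : Ω → Ω)) hb hc N ω
    rwa [one_mul] at this
  have hconv : ∀ᵐ ω ∂m, ∃ l : ℂ, Tendsto (fun N => A N ω) atTop (𝓝 l) :=
    h1 (conj ζ) (by rw [RCLike.norm_conj, hζ]) Ω m S hS H hH hb
  obtain ⟨φ₀, hφm, hφl⟩ := measurable_limit_of_tendsto_metrizable_ae
    (fun N => (hAm N).aemeasurable) hconv
  set φ : Ω → ℂ := fun ω => if ‖φ₀ ω‖ ≤ 1 then φ₀ ω else 0 with hφ
  have hm : Measurable φ :=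
    Measurable.ite (measurableSet_le hφm.norm measurable_const) hφm measurable_const
  have hbd : ∀ ω, ‖φ ω‖ ≤ 1 := by
    intro ω
    simp only [hφ]
    split_ifs with h
    · exact h
    · rw [norm_zero]; exact zero_le_one
  have hlim : ∀ᵐ ω ∂m, Tendsto (fun N => A N ω) atTop (𝓝 (φ ω)) := by
    filter_upwards [hφl] with ω hω
    have h2 : ‖φ₀ ω‖ ≤ 1 := le_of_tendsto hω.norm (Eventually.of_forall fun N => hAb N ω)
    simp only [hφ, if_pos h2]
    exact hω
  refine ⟨φ, hm, hbd, ?_, ?_⟩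
  · have h2 : ∀ᵐ ω ∂m, Tendsto (fun N => A N (S ω)) atTop (𝓝 (φ (S ω))) :=
      hS.quasiMeasurePreserving.tendsto_ae.eventually hlim
    filter_upwards [hlim, h2] with ω a1 a2
    have h3 : Tendsto (fun N => A N (S ω) - ζ * A N ω) atTop (𝓝 0) := by
      rw [tendsto_zero_iff_norm_tendsto_zero]
      refine squeeze_zero (fun N => norm_nonneg _) (fun N => Av_shift S H hb hζ N ω) ?_
      exact tendsto_const_div_atTop_nhds_zero_nat 2
    have h4 := a2.sub (a1.const_mul ζ)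
    have h5 := tendsto_nhds_unique h4 h3
    exact sub_eq_zero.1 h5
  · have h6 : Tendsto (fun N : ℕ => ∫ ω, ‖A N ω - φ ω‖ ^ 2 ∂m) atTop (𝓝 (∫ _ω, (0 : ℝ) ∂m)) := by
      refine tendsto_integral_of_dominated_convergence (fun _ => 4)
        (fun N => (((hAm N).sub hm).norm.pow_const 2).aestronglyMeasurable)
        (integrable_const _) (fun N => Eventually.of_forall fun ω => ?_) ?_
      · rw [Real.norm_eq_abs, abs_of_nonneg (sq_nonneg _)]
        have h7 : ‖A N ω - φ ω‖ ≤ 2 := by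
          have := norm_sub_le (A N ω) (φ ω)
          linarith [hAb N ω, hbd ω]
        nlinarith [norm_nonneg (A N ω - φ ω)]
      · filter_upwards [hlim] with ω hω
        have h8 := (hω.sub_const (φ ω)).norm.pow 2
        rw [sub_self, norm_zero] at h8
        simpa using h8
    rw [integral_zero] at h6
    exact h6

end Pool.Agent.H94.RTB.MEG
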