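import Pool.Agent.H94.RTB.Tools
import Pool.Agent.H35.RTB.DEC
import Pool.Agent.H85.RTX.Final

/-!
Row R_PRD of ssp_modules: almost every pair of points has a correlation.
-/

set_option autoImplicit false

namespace Pool.Agent.H94.RTB.PRD

open Pool.Agent.H94.RTB Pool.Agent.H35.RTB MeasureTheory Filter Topology Finset
open scoped ComplexConjugate NNReal

universe v

variable {Ω : Type v} [MeasurableSpace Ω] {m : Measure Ω} [IsProbabilityMeasure m]

/-- the correlation of two points -/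
noncomputable def co (S : Ω ≃ᵐ Ω) (q : Ω → ℂ) (N : ℕ) (z : Ω × Ω) : ℂ :=
  cor (fun n => q (S^[n] z.1)) (fun n => q (S^[n] z.2)) N

theorem co_meas (S : Ω ≃ᵐ Ω) {q : Ω → ℂ} (hq : Measurable q) (N : ℕ) :
    Measurable (co S q N) := by
  unfold co cor
  refine Measurable.div_const ?_ _
  refine Finset.measurable_sum _ fun n _ => ?_
  exact (hq.comp ((S.measurable.iterate n).comp measurable_fst)).mul
    (Complex.continuous_conj.measurable.comp
      (hq.comp ((S.measurable.iterate n).comp measurable_snd)))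

theorem co_le (S : Ω ≃ᵐ Ω) {q : Ω → ℂ} {C : ℝ} (hb : ∀ ω, ‖q ω‖ ≤ C) (N : ℕ) (z : Ω × Ω) :
    ‖co S q N z‖ ≤ C ^ 2 := by
  have hC : 0 ≤ C := (norm_nonneg _).trans (hb z.1)
  unfold co cor
  rw [norm_div, Complex.norm_natCast]
  rcases Nat.eq_zero_or_pos N with h0 | h0
  · rw [h0]; simp; positivity
  · have hN : (0 : ℝ) < N := by exact_mod_cast h0
    rw [div_le_iff₀ hN]
    refine (norm_sum_le _ _).trans ?_
    refine (Finset.sum_le_sum fun n _ => ?_).trans (b := ∑ _n ∈ Icc 1 N, C ^ 2) ?_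
    · rw [norm_mul, RCLike.norm_conj, sq]
      exact mul_le_mul (hb _) (hb _) (norm_nonneg _) hC
    · simp [mul_comm]

/-- the square norm of the correlation -/
theorem co_sq {S : Ω ≃ᵐ Ω} (hS : MeasurePreserving S m m) {q : Ω → ℂ} (hq : Measurable q) {C : ℝ}
    (hb : ∀ ω, ‖q ω‖ ≤ C) (N : ℕ) :
    ∫ z, ‖co S q N z‖ ^ 2 ∂(m.prod m) =
      (∑ a ∈ Icc 1 N, ∑ b ∈ Icc 1 N, ‖gamZ m S q ((a : ℤ) - b)‖ ^ 2) / (N : ℝ) ^ 2 := by
  have hqm : ∀ a : ℕ, Measurable fun ω => q (S^[a] ω) := fun a => hq.comp (meas_iter a)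
  have hi : ∀ a b : ℕ, Integrable (fun ω => q (S^[a] ω) * conj (q (S^[b] ω))) m := fun a b =>
    int_mul (hqm a) (hqm b) (fun ω => hb _) (fun ω => hb _)
  have hi2 : ∀ a b : ℕ, Integrable (fun ω => conj (q (S^[a] ω)) * q (S^[b] ω)) m := fun a b => by
    refine (hi b a).congr (Eventually.of_forall fun ω => ?_)
    show q (S^[b] ω) * conj (q (S^[a] ω)) = conj (q (S^[a] ω)) * q (S^[b] ω)
    ring
  have e1 : ((∫ z, ‖co S q N z‖ ^ 2 ∂(m.prod m) : ℝ) : ℂ) =
      ((∑ a ∈ Icc 1 N, ∑ b ∈ Icc 1 N, ‖gamZ m S q ((a : ℤ) - b)‖ ^ 2) / (N : ℝ) ^ 2 : ℝ) := by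
    rw [← integral_complex_ofReal]
    have e2 : ∀ z : Ω × Ω, ((‖co S q N z‖ ^ 2 : ℝ) : ℂ) =
        (∑ a ∈ Icc 1 N, ∑ b ∈ Icc 1 N, (q (S^[a] z.1) * conj (q (S^[b] z.1))) *
          (conj (q (S^[a] z.2)) * q (S^[b] z.2))) / (N : ℂ) ^ 2 := by
      intro z
      have : ((‖co S q N z‖ ^ 2 : ℝ) : ℂ) = co S q N z * conj (co S q N z) := by
        rw [Complex.mul_conj, Complex.normSq_eq_norm_sq]
      rw [this]
      unfold co cor
      rw [map_div₀, map_sum, Complex.conj_natCast, div_mul_div_comm, Finset.sum_mul_sum, ← sq]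
      congr 1
      refine Finset.sum_congr rfl fun a _ => Finset.sum_congr rfl fun b _ => ?_
      rw [map_mul, Complex.conj_conj]
      ring
    simp_rw [e2]
    rw [integral_div]
    have hp : ∀ a b : ℕ, Integrable (fun z : Ω × Ω => (q (S^[a] z.1) * conj (q (S^[b] z.1))) *
        (conj (q (S^[a] z.2)) * q (S^[b] z.2))) (m.prod m) := fun a b =>
      (hi a b).mul_prod (hi2 a b)
    rw [integral_finsetSum _ fun a _ => integrable_finsetSum _ fun b _ => hp a b]
    push_cast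
    congr 1
    refine Finset.sum_congr rfl fun a _ => ?_
    rw [integral_finsetSum _ fun b _ => hp a b]
    refine Finset.sum_congr rfl fun b _ => ?_
    rw [integral_prod_mul (fun ω => q (S^[a] ω) * conj (q (S^[b] ω)))
      (fun ω => conj (q (S^[a] ω)) * q (S^[b] ω))]
    have e3 : ∫ ω, conj (q (S^[a] ω)) * q (S^[b] ω) ∂m =
        conj (∫ ω, q (S^[a] ω) * conj (q (S^[b] ω)) ∂m) := by
      rw [← integral_conj]
      refine integral_congr_ae (Eventually.of_forall fun ω => ?_)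
      show conj (q (S^[a] ω)) * q (S^[b] ω) = conj (q (S^[a] ω) * conj (q (S^[b] ω)))
      rw [map_mul, Complex.conj_conj]
    rw [e3, gamZ_nat hS, Complex.mul_conj, Complex.normSq_eq_norm_sq]
    push_cast
    rfl
  exact_mod_cast e1

theorem gamZ_norm (S : Ω ≃ᵐ Ω) (q : Ω → ℂ) (n : ℤ) :
    ‖gamZ m S q n‖ = ‖gam m S q n.natAbs‖ := by
  unfold gamZ
  split_ifs with h
  · congr 2
    omega
  · rw [RCLike.norm_conj]
    congr 2
    omega

/-- the double sum over the pairs in terms of the distances -/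
theorem double_le (g : ℕ → ℝ) (hg : ∀ d, 0 ≤ g d) (N : ℕ) :
    ∑ a ∈ Icc 1 N, ∑ b ∈ Icc 1 N, g ((a : ℤ) - b).natAbs ≤ 2 * N * ∑ d ∈ range N, g d := by
  have h1 : ∀ a ∈ Icc 1 N, ∑ b ∈ Icc 1 N, g ((a : ℤ) - b).natAbs ≤ 2 * ∑ d ∈ range N, g d := by
    intro a ha
    rw [mem_Icc] at ha
    have h2 : Icc 1 N = Icc 1 a ∪ Icc (a + 1) N := by
      ext b
      simp only [mem_union, mem_Icc]
      omega
    have h3 : ∑ b ∈ Icc 1 N, g ((a : ℤ) - b).natAbs ≤
        ∑ b ∈ Icc 1 a, g ((a : ℤ) - b).natAbs + ∑ b ∈ Icc (a + 1) N, g ((a : ℤ) - b).natAbs := by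
      rw [h2]
      rw [Finset.sum_union]
      rw [Finset.disjoint_left]
      intro b hb1 hb2
      rw [mem_Icc] at hb1 hb2
      omega
    have h4 : ∑ b ∈ Icc 1 a, g ((a : ℤ) - b).natAbs ≤ ∑ d ∈ range N, g d := by
      rw [← Finset.sum_image (s := Icc 1 a) (g := fun b : ℕ => ((a : ℤ) - b).natAbs) (f := g)]
      · refine Finset.sum_le_sum_of_subset_of_nonneg ?_ fun d _ _ => hg d
        intro d hd
        rw [mem_image] at hd
        obtain ⟨b, hb, rfl⟩ := hd
        rw [mem_Icc] at hb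
        rw [mem_range]
        omega
      · intro b hb b' hb' h
        simp only [coe_Icc, Set.mem_Icc] at hb hb'
        simp only at h
        omega
    have h5 : ∑ b ∈ Icc (a + 1) N, g ((a : ℤ) - b).natAbs ≤ ∑ d ∈ range N, g d := by
      rw [← Finset.sum_image (s := Icc (a + 1) N) (g := fun b : ℕ => ((a : ℤ) - b).natAbs)
        (f := g)]
      · refine Finset.sum_le_sum_of_subset_of_nonneg ?_ fun d _ _ => hg d
        intro d hd
        rw [mem_image] at hd
        obtain ⟨b, hb, rfl⟩ := hd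
        rw [mem_Icc] at hb
        rw [mem_range]
        omega
      · intro b hb b' hb' h
        simp only [coe_Icc, Set.mem_Icc] at hb hb'
        simp only at h
        omega
    linarith
  refine (Finset.sum_le_sum h1).trans ?_
  rw [Finset.sum_const, Nat.card_Icc, add_tsub_cancel_right, nsmul_eq_mul]
  linarith [mul_comm (N : ℝ) (2 * ∑ d ∈ range N, g d)]

/-- the product map -/
theorem prod_iter (S : Ω ≃ᵐ Ω) (n : ℕ) (z : Ω × Ω) :
    (MeasurableEquiv.prodCongr S S)^[n] z = (S^[n] z.1, S^[n] z.2) := by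
  induction n generalizing z with
  | zero => rfl
  | succ n ih =>
    rw [Function.iterate_succ_apply, ih, Function.iterate_succ_apply, Function.iterate_succ_apply]
    rfl

theorem pf_PRD : T_PRD.{v} := by
  intro Ω _ m _ S hS q C δ hq hb hδ hg
  have hSS : MeasurePreserving (MeasurableEquiv.prodCongr S S) (m.prod m) (m.prod m) :=
    hS.prod hS
  have hΦ : MemLp (fun z : Ω × Ω => q z.1 * conj (q z.2)) ⊤ (m.prod m) := by
    refine memLp_top_of_bound ?_ (C ^ 2) (Eventually.of_forall fun z => ?_)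
    · exact ((hq.comp measurable_fst).mul (Complex.continuous_conj.measurable.comp
        (hq.comp measurable_snd))).aestronglyMeasurable
    · rw [norm_mul, RCLike.norm_conj, sq]
      exact mul_le_mul (hb _) (hb _) (norm_nonneg _) ((norm_nonneg _).trans (hb z.1))
  have hB := Pool.Agent.H85.RTX.birkhoff_complex hSS hΦ
  have hconv : ∀ᵐ z ∂(m.prod m), ∃ l : ℂ, Tendsto (fun N => co S q N z) atTop (𝓝 l) := by
    filter_upwards [hB] with z hz
    obtain ⟨_, l, hl⟩ := hz
    refine ⟨l, hl.congr fun N => ?_⟩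
    unfold co cor
    congr 1
    refine Finset.sum_congr rfl fun n _ => ?_
    rw [prod_iter]
  obtain ⟨k₀, hk₀m, hk₀⟩ := measurable_limit_of_tendsto_metrizable_ae
    (fun N => (co_meas S hq N).aemeasurable) hconv
  set k : Ω × Ω → ℂ := fun z => if ‖k₀ z‖ ≤ C ^ 2 then k₀ z else 0 with hk
  have hkm : Measurable k :=
    Measurable.ite (measurableSet_le hk₀m.norm measurable_const) hk₀m measurable_const
  have hkb : ∀ z, ‖k z‖ ≤ C ^ 2 := by
    intro z
    simp only [hk]
    split_ifs with h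
    · exact h
    · rw [norm_zero]; positivity
  have hklim : ∀ᵐ z ∂(m.prod m), Tendsto (fun N => co S q N z) atTop (𝓝 (k z)) := by
    filter_upwards [hk₀] with z hz
    have h1 : ‖k₀ z‖ ≤ C ^ 2 := le_of_tendsto hz.norm (Eventually.of_forall fun N => co_le S hb N z)
    simp only [hk, if_pos h1]
    exact hz
  refine ⟨k, hkm, hkb, hklim, ?_⟩
  have hdom : Tendsto (fun N => ∫ z, ‖co S q N z‖ ^ 2 ∂(m.prod m)) atTop
      (𝓝 (∫ z, ‖k z‖ ^ 2 ∂(m.prod m))) := by
    refine tendsto_integral_of_dominated_convergence (fun _ => (C ^ 2) ^ 2)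
      (fun N => ((co_meas S hq N).norm.pow_const 2).aestronglyMeasurable)
      (integrable_const _) (fun N => Eventually.of_forall fun z => ?_) ?_
    · rw [Real.norm_eq_abs, abs_of_nonneg (sq_nonneg _)]
      exact pow_le_pow_left₀ (norm_nonneg _) (co_le S hb N z) 2
    · filter_upwards [hklim] with z hz
      exact hz.norm.pow 2
  refine le_of_tendsto hdom ?_
  filter_upwards [hg, eventually_gt_atTop 0] with N hN hN0
  have hN' : (0 : ℝ) < N := by exact_mod_cast hN0
  rw [co_sq hS hq hb, div_le_iff₀ (by positivity)]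
  have h1 : ∑ a ∈ Icc 1 N, ∑ b ∈ Icc 1 N, ‖gamZ m S q ((a : ℤ) - b)‖ ^ 2 =
      ∑ a ∈ Icc 1 N, ∑ b ∈ Icc 1 N, (fun d => ‖gam m S q d‖ ^ 2) ((a : ℤ) - b).natAbs := by
    refine Finset.sum_congr rfl fun a _ => Finset.sum_congr rfl fun b _ => ?_
    rw [gamZ_norm]
  rw [h1]
  refine (double_le (fun d => ‖gam m S q d‖ ^ 2) (fun d => sq_nonneg _) N).trans ?_
  rw [div_le_iff₀ hN'] at hN
  nlinarith

end Pool.Agent.H94.RTB.PRD
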