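import Pool.Agent.H94.RTB.Tools

/-!
Row R_RT of ssp_modules: the return times theorem for bounded functions over an ergodic system,
assembled from the core estimate, the decomposition and the genericity statement.
-/

set_option autoImplicit false

namespace Pool.Agent.H94.RTB

open MeasureTheory Filter Topology Finset
open scoped ComplexConjugate NNReal ENNReal

universe u v

/-- a weight which is a limit of good weights up to weights with small maximal averages is good -/
theorem good_of_approx (w : ℕ → ℂ) (p z : ℕ → ℕ → ℂ) (C κ : ℕ → ℝ)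
    (hw : ∀ j n, w n = p j n + z j n) (hz : ∀ j n, ‖z j n‖ ≤ C j)
    (hκ : Tendsto κ atTop (𝓝 0))
    (X : Type u) [MeasurableSpace X] (μ : Measure X) [IsProbabilityMeasure μ]
    (T : X ≃ᵐ X) (F : X → ℂ) (hF : Measurable F) (hF1 : ∀ x, ‖F x‖ ≤ 1)
    (hp : ∀ j, ∀ᵐ x ∂μ, ∃ l : ℂ, Tendsto (fun N => Av T F (p j) N x) atTop (𝓝 l))
    (hc : ∀ j, ∀ ε > (0 : ℝ), ∃ M : ℕ, ∀ L : ℕ, ∫ x, mx T F (z j) M L x ∂μ ≤ √(κ j) + ε) :
    ∀ᵐ x ∂μ, ∃ l : ℂ, Tendsto (fun N => Av T F w N x) atTop (𝓝 l) := by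
  have hc' : ∀ j, ∃ M : ℕ, ∀ L : ℕ, ∫ x, mx T F (z j) M L x ∂μ ≤ √(κ j) + (1 / 2) ^ j :=
    fun j => hc j _ (by positivity)
  choose M hM using hc'
  set G : ℕ → X → ℝ≥0∞ := fun j x => ⨆ L : ℕ, ENNReal.ofReal (mx T F (z j) (M j) L x) with hG
  have hGm : ∀ j, Measurable (G j) := fun j =>
    Measurable.iSup fun L => (mx_meas T.measurable hF (z j) (M j) L).ennreal_ofReal
  have hGi : ∀ j, ∫⁻ x, G j x ∂μ ≤ ENNReal.ofReal (√(κ j) + (1 / 2) ^ j) := by
    intro j
    rw [hG]
    rw [lintegral_iSup (fun L => (mx_meas T.measurable hF (z j) (M j) L).ennreal_ofReal)]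
    · refine iSup_le fun L => ?_
      rw [← ofReal_integral_eq_lintegral_ofReal (mx_int T.measurable hF hF1 (hz j) (M j) L)
        (Eventually.of_forall fun x => mx_nonneg _ _ _ _ _ x)]
      exact ENNReal.ofReal_le_ofReal (hM j L)
    · intro L L' hL x
      exact ENNReal.ofReal_le_ofReal (mx_mono T F (z j) (M j) x hL)
  have hb : Tendsto (fun j => ENNReal.ofReal (√(κ j) + (1 / 2) ^ j)) atTop (𝓝 0) := by
    have h1 : Tendsto (fun j => √(κ j) + (1 / 2 : ℝ) ^ j) atTop (𝓝 (√0 + 0)) :=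
      ((Real.continuous_sqrt.tendsto 0).comp hκ).add
        (tendsto_pow_atTop_nhds_zero_of_lt_one (by norm_num) (by norm_num))
    rw [Real.sqrt_zero, add_zero] at h1
    have h2 := ENNReal.tendsto_ofReal h1
    rwa [ENNReal.ofReal_zero] at h2
  have hlim : ∫⁻ x, liminf (fun j => G j x) atTop ∂μ = 0 := by
    refine le_antisymm ?_ bot_le
    refine (lintegral_liminf_le hGm).trans ?_
    refine (liminf_le_liminf (v := fun j => ENNReal.ofReal (√(κ j) + (1 / 2) ^ j))
      (Eventually.of_forall fun j => hGi j)).trans ?_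
    rw [hb.liminf_eq]
  have hae : ∀ᵐ x ∂μ, liminf (fun j => G j x) atTop = 0 := by
    have hm : Measurable fun x => liminf (fun j => G j x) atTop := Measurable.liminf hGm
    have h1 := (lintegral_eq_zero_iff hm).1 hlim
    filter_upwards [h1] with x hx
    exact hx
  filter_upwards [hae, ae_all_iff.2 hp] with x hx hpx
  have hcs : CauchySeq (fun N => Av T F w N x) := by
    rw [Metric.cauchySeq_iff']
    intro ε hε
    have h1 : ∃ j, G j x < ENNReal.ofReal (ε / 4) := by
      have h2 : liminf (fun j => G j x) atTop < ENNReal.ofReal (ε / 4) := by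
        rw [hx]
        exact ENNReal.ofReal_pos.2 (by linarith)
      exact (frequently_lt_of_liminf_lt (by isBoundedDefault) h2).exists
    obtain ⟨j, hj⟩ := h1
    have h3 : ∀ N, M j ≤ N → ‖Av T F (z j) N x‖ < ε / 4 := by
      intro N hN
      have h4 : ENNReal.ofReal (mx T F (z j) (M j) N x) ≤ G j x :=
        le_iSup (fun L : ℕ => ENNReal.ofReal (mx T F (z j) (M j) L x)) N
      have h5 : mx T F (z j) (M j) N x < ε / 4 := by
        by_contra h6
        push Not at h6
        exact absurd (h4.trans_lt hj) (not_lt.2 (ENNReal.ofReal_le_ofReal h6))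
      exact (le_mx T F (z j) hN le_rfl x).trans_lt h5
    obtain ⟨l, hl⟩ := hpx j
    have h6 := Metric.cauchySeq_iff'.1 hl.cauchySeq (ε / 4) (by linarith)
    obtain ⟨N₁, hN₁⟩ := Metric.cauchySeq_iff.1 hl.cauchySeq (ε / 4) (by linarith)
    refine ⟨max N₁ (M j), fun N hN => ?_⟩
    have e : ∀ K, Av T F w K x = Av T F (p j) K x + Av T F (z j) K x := by
      intro K
      rw [← Av_add]
      congr 1
      funext n
      exact hw j n
    have hN2 : N₁ ≤ N := (le_max_left _ _).trans hN
    have hN3 : M j ≤ N := (le_max_right _ _).trans hN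
    rw [dist_eq_norm, e, e]
    have h7 := hN₁ N hN2 (max N₁ (M j)) (le_max_left _ _)
    rw [dist_eq_norm] at h7
    have h8 := h3 N hN3
    have h9 := h3 (max N₁ (M j)) (le_max_right _ _)
    have h10 : Av T F (p j) N x + Av T F (z j) N x -
        (Av T F (p j) (max N₁ (M j)) x + Av T F (z j) (max N₁ (M j)) x) =
        (Av T F (p j) N x - Av T F (p j) (max N₁ (M j)) x) + Av T F (z j) N x
          - Av T F (z j) (max N₁ (M j)) x := by ring
    rw [h10]
    refine (norm_sub_le _ _).trans_lt ?_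
    have h11 := norm_add_le (Av T F (p j) N x - Av T F (p j) (max N₁ (M j)) x) (Av T F (z j) N x)
    linarith
  exact cauchySeq_tendsto_of_complete hcs

theorem pf_RT (h1 : T_CORE.{u}) (h2 : T_ZG.{v}) (h3 : T_DEC.{v}) (h4 : T_EIG.{u}) :
    T_RT.{u, v} := by
  intro Ω _ m _ S hS H hH hH1
  have hmp : MeasurePreserving S m m := hS.toMeasurePreserving
  choose k φ ζ hζ hφm hφb hφe hg using fun j : ℕ => h3 Ω m S hmp H hH hH1 ((1 / 4 : ℝ) ^ j)
    (by positivity)
  set q : ℕ → Ω → ℂ := fun j ω => H ω - ∑ i, φ j i ω with hq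
  have hqm : ∀ j, Measurable (q j) := fun j =>
    hH.sub (Finset.measurable_sum _ fun i _ => hφm j i)
  have hqb : ∀ j ω, ‖q j ω‖ ≤ 1 + (k j : ℝ) := by
    intro j ω
    refine (norm_sub_le _ _).trans (add_le_add (hH1 ω) ?_)
    refine (norm_sum_le _ _).trans ?_
    refine (Finset.sum_le_sum fun i _ => hφb j i ω).trans ?_
    simp
  choose κ hκm hκb hκi hκz using fun j : ℕ => h2 Ω m S hS (q j) (1 + (k j : ℝ)) ((1 / 4 : ℝ) ^ j)
    (hqm j) (hqb j) (by positivity) (hg j)
  -- the numbers κ tend to zero almost everywhere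
  have hk2 : ∀ᵐ ω ∂m, Tendsto (fun j => κ j ω) atTop (𝓝 0) := by
    have hint : ∀ j, ∫⁻ ω, ENNReal.ofReal (κ j ω ^ 2) ∂m ≤ ENNReal.ofReal (2 * (1 / 4) ^ j) := by
      intro j
      rw [← ofReal_integral_eq_lintegral_ofReal]
      · exact ENNReal.ofReal_le_ofReal (hκi j)
      · refine Integrable.of_bound ((hκm j).pow_const 2).aestronglyMeasurable
          (((1 + (k j : ℝ)) ^ 2) ^ 2) (Eventually.of_forall fun ω => ?_)
        rw [Real.norm_eq_abs, abs_of_nonneg (sq_nonneg _)]
        exact pow_le_pow_left₀ (hκb j ω).1 (hκb j ω).2 2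
      · exact Eventually.of_forall fun ω => sq_nonneg _
    have hsum : ∫⁻ ω, ∑' j, ENNReal.ofReal (κ j ω ^ 2) ∂m ≠ ∞ := by
      rw [lintegral_tsum fun j => ((hκm j).pow_const 2).ennreal_ofReal.aemeasurable]
      refine ne_top_of_le_ne_top ?_ (ENNReal.tsum_le_tsum hint)
      rw [← ENNReal.ofReal_tsum_of_nonneg (fun j => by positivity)]
      · exact ENNReal.ofReal_ne_top
      · exact (summable_geometric_of_lt_one (by norm_num) (by norm_num)).mul_left 2
    have hfin := ae_lt_top' (AEMeasurable.tsum (fun j =>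
      ((hκm j).pow_const 2).ennreal_ofReal.aemeasurable)) hsum
    filter_upwards [hfin] with ω hω
    have h5 := ENNReal.tendsto_atTop_zero_of_tsum_ne_top hω.ne
    have h6 : Tendsto (fun j => κ j ω ^ 2) atTop (𝓝 0) := by
      have h7 := (ENNReal.tendsto_toReal ENNReal.zero_ne_top).comp h5
      refine h7.congr fun j => ?_
      simp only [Function.comp_apply]
      exact ENNReal.toReal_ofReal (sq_nonneg _)
    have h8 := (Real.continuous_sqrt.tendsto 0).comp h6
    rw [Real.sqrt_zero] at h8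
    refine h8.congr fun j => ?_
    simp only [Function.comp_apply]
    exact Real.sqrt_sq (hκb j ω).1
  -- the eigenfunctions along the orbit
  have heig : ∀ᵐ ω ∂m, ∀ j (i : Fin (k j)) (n : ℕ), φ j i (S^[n] ω) = ζ j i ^ n * φ j i ω := by
    rw [ae_all_iff]
    intro j
    rw [ae_all_iff]
    intro i
    have h5 : ∀ᵐ ω ∂m, ∀ n : ℕ, φ j i (S (S^[n] ω)) = ζ j i * φ j i (S^[n] ω) := by
      rw [ae_all_iff]
      intro n
      exact (hmp.iterate n).quasiMeasurePreserving.ae (hφe j i)
    filter_upwards [h5] with ω hω n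
    induction n with
    | zero => simp
    | succ n ih =>
      rw [Function.iterate_succ_apply', hω n, ih, pow_succ]
      ring
  filter_upwards [hk2, heig, ae_all_iff.2 hκz] with ω a1 a2 a3
  intro X _ μ _ T hT F hF hF1
  refine good_of_approx (fun n => H (S^[n] ω))
    (fun j n => ∑ i, ζ j i ^ n * φ j i ω) (fun j n => q j (S^[n] ω)) (fun j => 1 + (k j : ℝ))
    (fun j => κ j ω) ?_ (fun j n => hqb j _) a1 X μ T F hF hF1 ?_ ?_
  · intro j n
    simp only [hq]
    rw [Finset.sum_congr rfl fun i _ => (a2 j i n).symm]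
    ring
  · intro j
    have h5 : ∀ᵐ x ∂μ, ∀ i : Fin (k j), ∃ l : ℂ,
        Tendsto (fun N => Av T F (fun n => ζ j i ^ n) N x) atTop (𝓝 l) := by
      rw [ae_all_iff]
      intro i
      exact h4 (ζ j i) (hζ j i) X μ T hT F hF hF1
    filter_upwards [h5] with x hx
    choose l hl using hx
    refine ⟨∑ i, φ j i ω * l i, ?_⟩
    have h6 := tendsto_finsetSum (Finset.univ) fun i _ => (hl i).const_mul (φ j i ω)
    refine h6.congr fun N => ?_
    unfold Av
    simp only [Finset.sum_mul, ← mul_div_assoc, Finset.mul_sum]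
    rw [← Finset.sum_div, Finset.sum_comm]
    congr 1
    refine Finset.sum_congr rfl fun n _ => Finset.sum_congr rfl fun i _ => ?_
    ring
  · intro j ε hε
    exact h1 _ (1 + (k j : ℝ)) (κ j ω) (fun n => hqb j _) (hκb j ω).1 (a3 j) X μ T hT F hF hF1 ε hε

end Pool.Agent.H94.RTB
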