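import Pool.Agent.H94.RTB.Targets3

/-!
Row R_RTT of ssp_modules: the return times theorem for functions with arbitrary bounds.
-/

set_option autoImplicit false

namespace Pool.Agent.H94.RTB

open MeasureTheory Filter Topology Finset
open scoped ComplexConjugate NNReal

universe u v

theorem pf_RTT (h : T_RT.{u, v}) : T_RTT.{u, v} := by
  intro Ω _ m _ S hS H hH ⟨C, hC⟩
  set c : ℝ := max C 1 with hc
  have hc1 : 1 ≤ c := le_max_right _ _
  have hc0 : 0 < c := by linarith
  have hcc : (c : ℂ) ≠ 0 := by exact_mod_cast hc0.ne'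
  have h1 := h Ω m S hS (fun ω => H ω / c) (hH.div_const _) (fun ω => by
    rw [norm_div, Complex.norm_real, Real.norm_eq_abs, abs_of_pos hc0, div_le_one hc0]
    exact (hC ω).trans (le_max_left _ _))
  filter_upwards [h1] with ω hω
  intro X _ μ _ T hT F hF ⟨D, hD⟩
  set d : ℝ := max D 1 with hd
  have hd1 : 1 ≤ d := le_max_right _ _
  have hd0 : 0 < d := by linarith
  have hdd : (d : ℂ) ≠ 0 := by exact_mod_cast hd0.ne'
  have h2 := hω X μ T hT (fun x => F x / d) (hF.div_const _) (fun x => by
    rw [norm_div, Complex.norm_real, Real.norm_eq_abs, abs_of_pos hd0, div_le_one hd0]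
    exact (hD x).trans (le_max_left _ _))
  filter_upwards [h2] with x ⟨l, hl⟩
  refine ⟨(c : ℂ) * d * l, ?_⟩
  have h3 := hl.const_mul ((c : ℂ) * d)
  refine h3.congr fun N => ?_
  unfold Av
  rw [← mul_div_assoc, Finset.mul_sum]
  congr 1
  refine Finset.sum_congr rfl fun n _ => ?_
  field_simp

end Pool.Agent.H94.RTB
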