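import Pool.Agent.H94.RTB.Targets
import Pool.Agent.H35.RTB.DEC

/-!
Row R_WIE of ssp_modules: the lemma of Wiener.
-/

set_option autoImplicit false

namespace Pool.Agent.H94.RTB.WIE

open Pool.Agent.H94.RTB Pool.Agent.H35.RTB MeasureTheory Filter Topology Finset
open scoped ComplexConjugate NNReal

/-- the means of the powers over `range N` -/
theorem mean_range {w : ℂ} (hw : ‖w‖ = 1) : Tendsto (fun N : ℕ => (∑ n ∈ range N, w ^ n) / (N : ℂ))
    atTop (𝓝 (if w = 1 then 1 else 0)) := by
  by_cases h : w = 1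
  · rw [if_pos h]
    refine tendsto_const_nhds.congr' ?_
    filter_upwards [eventually_gt_atTop 0] with N hN
    have : (N : ℂ) ≠ 0 := by exact_mod_cast hN.ne'
    simp [h, this]
  · rw [if_neg h, tendsto_zero_iff_norm_tendsto_zero]
    have h1 : w - 1 ≠ 0 := sub_ne_zero.2 h
    refine squeeze_zero (fun N => norm_nonneg _) (fun N => ?_)
      (tendsto_const_div_atTop_nhds_zero_nat (2 / ‖w - 1‖))
    rw [geom_sum_eq h, norm_div, norm_div, Complex.norm_natCast]
    refine div_le_div_of_nonneg_right ?_ (Nat.cast_nonneg _)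
    refine div_le_div_of_nonneg_right ?_ (norm_nonneg _)
    refine (norm_sub_le _ _).trans ?_
    rw [norm_pow, hw, one_pow, norm_one]
    norm_num

/-- the kernel of the mean square -/
noncomputable def ke (N : ℕ) (z : UnitAddCircle × UnitAddCircle) : ℂ :=
  (∑ n ∈ range N, ((fourier 1 z.1 : ℂ) * conj (fourier 1 z.2 : ℂ)) ^ n) / (N : ℂ)

theorem ke_cont (N : ℕ) : Continuous (ke N) := by
  unfold ke
  refine Continuous.div_const ?_ _
  refine continuous_finsetSum _ fun n _ => ?_
  refine Continuous.pow ?_ n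
  exact ((fourier 1).continuous.comp continuous_fst).mul
    (Complex.continuous_conj.comp ((fourier 1).continuous.comp continuous_snd))

theorem ke_le (N : ℕ) (z : UnitAddCircle × UnitAddCircle) : ‖ke N z‖ ≤ 1 := by
  unfold ke
  rw [norm_div, Complex.norm_natCast]
  refine div_le_one_of_le₀ ?_ (Nat.cast_nonneg _)
  refine (norm_sum_le _ _).trans ?_
  refine (Finset.sum_le_sum fun n _ => ?_).trans (b := ∑ _n ∈ range N, (1 : ℝ)) ?_
  · rw [norm_pow, norm_mul, RCLike.norm_conj, fourier_norm, fourier_norm]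
    simp
  · simp

theorem ke_lim (z : UnitAddCircle × UnitAddCircle) :
    Tendsto (fun N => ke N z) atTop (𝓝 (if z.1 = z.2 then 1 else 0)) := by
  have h1 := mean_range (w := (fourier 1 z.1 : ℂ) * conj (fourier 1 z.2 : ℂ)) (by
    rw [norm_mul, RCLike.norm_conj, fourier_norm, fourier_norm, one_mul])
  have h2 : ((fourier 1 z.1 : ℂ) * conj (fourier 1 z.2 : ℂ) = 1) ↔ z.1 = z.2 := by
    constructor
    · intro h
      apply fourier_inj
      have h3 : (fourier 1 z.2 : ℂ) * conj (fourier 1 z.2 : ℂ) = 1 := by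
        rw [Complex.mul_conj, Complex.normSq_eq_norm_sq, fourier_norm]
        norm_num
      have h4 : conj (fourier 1 z.2 : ℂ) ≠ 0 := by
        intro h0
        rw [h0, mul_zero] at h3
        exact zero_ne_one h3
      exact mul_right_cancel₀ h4 (h.trans h3.symm)
    · intro h
      rw [h, Complex.mul_conj, Complex.normSq_eq_norm_sq, fourier_norm]
      norm_num
  simp only [h2] at h1
  exact h1

theorem ke_int (ν : Measure UnitAddCircle) [IsFiniteMeasure ν] (N : ℕ) :
    ∫ z, ke N z ∂(ν.prod ν) =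
      (((∑ n ∈ range N, ‖∫ x, fourier (n : ℤ) x ∂ν‖ ^ 2) / N : ℝ) : ℂ) := by
  unfold ke
  rw [integral_div]
  have hi : ∀ n : ℕ, Integrable (fun x => (fourier (n : ℤ) x : ℂ)) ν := fun n =>
    int_bd (fourier (n : ℤ)).continuous.measurable (C := 1) fun y => (fourier_norm _ y).le
  have hi2 : ∀ n : ℕ, Integrable (fun x => conj (fourier (n : ℤ) x : ℂ)) ν := fun n => by
    refine int_bd (Complex.continuous_conj.comp (fourier (n : ℤ)).continuous).measurable
      (C := 1) fun y => ?_
    rw [RCLike.norm_conj]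
    exact (fourier_norm _ y).le
  have e1 : ∀ (n : ℕ) (z : UnitAddCircle × UnitAddCircle),
      ((fourier 1 z.1 : ℂ) * conj (fourier 1 z.2 : ℂ)) ^ n =
        (fourier (n : ℤ) z.1 : ℂ) * conj (fourier (n : ℤ) z.2 : ℂ) := by
    intro n z
    rw [mul_pow, ← fourier_pow n z.1, fourier_pow n z.2, map_pow]
  simp_rw [e1]
  rw [integral_finsetSum _ fun n _ => (hi n).mul_prod (hi2 n)]
  push_cast
  congr 1
  refine Finset.sum_congr rfl fun n _ => ?_
  rw [integral_prod_mul (fun x => (fourier (n : ℤ) x : ℂ))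
    (fun x => conj (fourier (n : ℤ) x : ℂ)), integral_conj, Complex.mul_conj,
    Complex.normSq_eq_norm_sq]
  push_cast
  rfl

theorem pf_WIE : T_WIE := by
  intro ν _ η hη ε hε
  have h1 : Tendsto (fun N => ∫ z, ke N z ∂(ν.prod ν)) atTop
      (𝓝 (∫ z : UnitAddCircle × UnitAddCircle, (if z.1 = z.2 then (1 : ℂ) else 0) ∂(ν.prod ν))) := by
    refine tendsto_integral_of_dominated_convergence (fun _ => (1 : ℝ))
      (fun N => (ke_cont N).measurable.aestronglyMeasurable) (integrable_const _)
      (fun N => Eventually.of_forall fun z => ke_le N z) (Eventually.of_forall fun z => ke_lim z)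
  have h2 : ∫ z : UnitAddCircle × UnitAddCircle, (if z.1 = z.2 then (1 : ℂ) else 0) ∂(ν.prod ν) =
      ((∫ x, ν.real {x} ∂ν : ℝ) : ℂ) := by
    have hmeas : MeasurableSet {z : UnitAddCircle × UnitAddCircle | z.1 = z.2} :=
      measurableSet_eq_fun measurable_fst measurable_snd
    have hint : Integrable (fun z : UnitAddCircle × UnitAddCircle =>
        if z.1 = z.2 then (1 : ℂ) else 0) (ν.prod ν) := by
      refine int_bd (Measurable.ite hmeas measurable_const measurable_const) (C := 1) fun z => ?_
      split_ifs <;> simp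
    rw [integral_prod _ hint, ← integral_complex_ofReal]
    refine integral_congr_ae (Eventually.of_forall fun x => ?_)
    show ∫ y, (if x = y then (1 : ℂ) else 0) ∂ν = ((ν.real {x} : ℝ) : ℂ)
    have e2 : ∀ y : UnitAddCircle, (if x = y then (1 : ℂ) else 0) =
        Set.indicator {x} (fun _ => (1 : ℂ)) y := by
      intro y
      by_cases h : x = y
      · simp [h]
      · rw [if_neg h, Set.indicator_of_notMem]
        simpa [eq_comm] using h
    simp_rw [e2]
    rw [integral_indicator (measurableSet_singleton x), setIntegral_const]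
    simp
  have h3 : ∫ x, ν.real {x} ∂ν ≤ η * ν.real Set.univ := by
    have h4 : ∀ x, ν.real {x} ≤ η := hη
    have hmono : ∫ x, ν.real {x} ∂ν ≤ ∫ _x, η ∂ν := by
      refine integral_mono_of_nonneg (Eventually.of_forall fun x => measureReal_nonneg)
        (integrable_const _) (Eventually.of_forall h4)
    refine hmono.trans ?_
    rw [integral_const, smul_eq_mul, mul_comm]
  rw [h2] at h1
  simp_rw [ke_int] at h1
  have h5 : Tendsto (fun N : ℕ => (∑ n ∈ range N, ‖∫ x, fourier (n : ℤ) x ∂ν‖ ^ 2) / (N : ℝ)) atTop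
      (𝓝 (∫ x, ν.real {x} ∂ν)) := by
    have h6 := (Complex.continuous_re.tendsto _).comp h1
    simpa only [Function.comp_def, Complex.ofReal_re] using h6
  have h7 : ∫ x, ν.real {x} ∂ν < η * ν.real Set.univ + ε := by linarith
  filter_upwards [h5.eventually (gt_mem_nhds h7)] with N hN
  exact hN.le

end Pool.Agent.H94.RTB.WIE
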