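import Pool.Agent.H94.RTB.Defs

/-!
# Return times for linear averages: the targets of part R
-/

namespace Pool.Agent.H94.RTB

open MeasureTheory Filter Topology Finset
open scoped ComplexConjugate NNReal

universe u v

/-- R1: selection of the best average in a window -/
def T_SEL : Prop := ∀ (X : Type u) [MeasurableSpace X] (T : X ≃ᵐ X) (F : X → ℂ) (w : ℕ → ℂ)
  (M L : ℕ), Measurable F → M ≤ L →
    ∃ N : X → ℕ, Measurable N ∧ (∀ x, M ≤ N x ∧ N x ≤ L) ∧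
      ∃ a : X → ℂ, Measurable a ∧ (∀ x, ‖a x‖ ≤ 1) ∧
        ∀ x, a x * Av T F w (N x) x = (mx T F w M L x : ℂ)

/-- R2: the pairing of `CC` with a bounded function -/
def T_PAIR : Prop := ∀ (X : Type u) [MeasurableSpace X] (μ : Measure X) [IsProbabilityMeasure μ]
  (T : X ≃ᵐ X), MeasurePreserving T μ μ → ∀ (w : ℕ → ℂ) (L : ℕ) (N : X → ℕ) (a G : X → ℂ)
    (B : ℝ), Measurable N → (∀ x, 1 ≤ N x ∧ N x ≤ L) → Measurable a → (∀ x, ‖a x‖ ≤ 1) →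
      Measurable G → (∀ x, ‖G x‖ ≤ B) →
        ∫ x, CC T w L N a x * G x ∂μ = ∫ x, a x * Av T G w (N x) x ∂μ

/-- R3: the square norm of `CC` -/
def T_L2 : Prop := ∀ (X : Type u) [MeasurableSpace X] (μ : Measure X) [IsProbabilityMeasure μ]
  (T : X ≃ᵐ X), MeasurePreserving T μ μ → ∀ (w : ℕ → ℂ) (C : ℝ) (L : ℕ) (N : X → ℕ) (a : X → ℂ),
    (∀ n, ‖w n‖ ≤ C) → Measurable N → (∀ x, 1 ≤ N x ∧ N x ≤ L) → Measurable a →
      (∀ x, ‖a x‖ ≤ 1) → ∫ x, ‖CC T w L N a x‖ ^ 2 ∂μ ≤ 4 * C ^ 2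

/-- R4: near orthogonality of two levels -/
def T_ORT : Prop := ∀ (X : Type u) [MeasurableSpace X] (μ : Measure X) [IsProbabilityMeasure μ]
  (T : X ≃ᵐ X), MeasurePreserving T μ μ → ∀ (w : ℕ → ℂ) (C η : ℝ) (M L M' L' : ℕ)
    (N N' : X → ℕ) (a a' : X → ℂ), (∀ n, ‖w n‖ ≤ C) → 0 ≤ η → 1 ≤ M → M ≤ L → L ≤ M' → M' ≤ L' →
      Measurable N → (∀ x, M ≤ N x ∧ N x ≤ L) → Measurable a → (∀ x, ‖a x‖ ≤ 1) →
      Measurable N' → (∀ x, M' ≤ N' x ∧ N' x ≤ L') → Measurable a' → (∀ x, ‖a' x‖ ≤ 1) →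
      (∀ K : ℕ, M' ≤ K → (∑ p ∈ range K, mcor w (fun r => w (r + p)) M L) ≤ η * K) →
        ‖∫ x, CC T w L N a x * conj (CC T w L' N' a' x) ∂μ‖ ≤ η + 2 * C ^ 2 * L / M'

/-- R5: the core of the return times theorem: small self-correlations give small averages, for
every system -/
def T_CORE : Prop := ∀ (w : ℕ → ℂ) (C κ : ℝ), (∀ n, ‖w n‖ ≤ C) → 0 ≤ κ → Zk κ w →
  ∀ (X : Type u) [MeasurableSpace X] (μ : Measure X) [IsProbabilityMeasure μ]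
    (T : X ≃ᵐ X), MeasurePreserving T μ μ → ∀ F : X → ℂ, Measurable F → (∀ x, ‖F x‖ ≤ 1) →
      ∀ ε > (0 : ℝ), ∃ M : ℕ, ∀ L : ℕ, ∫ x, mx T F w M L x ∂μ ≤ √κ + ε

/-- R6: the pointwise ergodic theorem on the product: almost every pair of points has a
correlation, with small square norm if the correlations of `q` are small in square mean -/
def T_PRD : Prop := ∀ (Ω : Type v) [MeasurableSpace Ω] (m : Measure Ω) [IsProbabilityMeasure m]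
  (S : Ω ≃ᵐ Ω), MeasurePreserving S m m → ∀ (q : Ω → ℂ) (C δ : ℝ), Measurable q →
    (∀ ω, ‖q ω‖ ≤ C) → 0 ≤ δ →
      (∀ᶠ N : ℕ in atTop, (∑ d ∈ range N, ‖gam m S q d‖ ^ 2) / N ≤ δ) →
        ∃ k : Ω × Ω → ℂ, Measurable k ∧ (∀ z, ‖k z‖ ≤ C ^ 2) ∧
          (∀ᵐ z ∂(m.prod m), Tendsto (fun N => cor (fun n => q (S^[n] z.1))
            (fun n => q (S^[n] z.2)) N) atTop (𝓝 (k z))) ∧
          ∫ z, ‖k z‖ ^ 2 ∂(m.prod m) ≤ 2 * δ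

/-- R7: almost every point of an ergodic system has small self-correlations -/
def T_ZG : Prop := ∀ (Ω : Type v) [MeasurableSpace Ω] (m : Measure Ω) [IsProbabilityMeasure m]
  (S : Ω ≃ᵐ Ω), Ergodic S m → ∀ (q : Ω → ℂ) (C δ : ℝ), Measurable q →
    (∀ ω, ‖q ω‖ ≤ C) → 0 ≤ δ →
      (∀ᶠ N : ℕ in atTop, (∑ d ∈ range N, ‖gam m S q d‖ ^ 2) / N ≤ δ) →
        ∃ κ : Ω → ℝ, Measurable κ ∧ (∀ ω, 0 ≤ κ ω ∧ κ ω ≤ C ^ 2) ∧ ∫ ω, κ ω ^ 2 ∂m ≤ 2 * δ ∧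
          ∀ᵐ ω ∂m, Zk (κ ω) (fun n => q (S^[n] ω))

/-- a positive definite sequence on the integers -/
def PD (γ : ℤ → ℂ) : Prop :=
  ∀ (s : Finset ℤ) (c : ℤ → ℂ), ∃ r : ℝ, 0 ≤ r ∧
    ∑ i ∈ s, ∑ j ∈ s, c i * conj (c j) * γ (i - j) = (r : ℂ)

/-- R8: the theorem of Herglotz -/
def T_HER : Prop := ∀ γ : ℤ → ℂ, PD γ → ∃ ν : Measure UnitAddCircle, IsFiniteMeasure ν ∧
  ∀ n : ℤ, ∫ x, fourier n x ∂ν = γ n

/-- R9: the lemma of Wiener: small atoms give small Fourier coefficients in square mean -/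
def T_WIE : Prop := ∀ (ν : Measure UnitAddCircle) [IsFiniteMeasure ν] (η : ℝ),
  (∀ x, ν.real {x} ≤ η) → ∀ ε > (0 : ℝ), ∀ᶠ N : ℕ in atTop,
    (∑ n ∈ range N, ‖∫ x, fourier (n : ℤ) x ∂ν‖ ^ 2) / N ≤ η * ν.real Set.univ + ε

/-- R10: a bounded function is a finite sum of bounded eigenfunctions up to a function with small
correlations in square mean -/
def T_DEC : Prop := ∀ (Ω : Type v) [MeasurableSpace Ω] (m : Measure Ω) [IsProbabilityMeasure m]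
  (S : Ω ≃ᵐ Ω), MeasurePreserving S m m → ∀ H : Ω → ℂ, Measurable H → (∀ ω, ‖H ω‖ ≤ 1) →
    ∀ δ > (0 : ℝ), ∃ (k : ℕ) (φ : Fin k → Ω → ℂ) (ζ : Fin k → ℂ), (∀ i, ‖ζ i‖ = 1) ∧
      (∀ i, Measurable (φ i)) ∧ (∀ i ω, ‖φ i ω‖ ≤ 1) ∧
      (∀ i, ∀ᵐ ω ∂m, φ i (S ω) = ζ i * φ i ω) ∧
      ∀ᶠ N : ℕ in atTop,
        (∑ d ∈ range N, ‖gam m S (fun ω => H ω - ∑ i, φ i ω) d‖ ^ 2) / N ≤ δ

/-- R11: characters are good weights -/
def T_EIG : Prop := ∀ ζ : ℂ, ‖ζ‖ = 1 → LGood.{u} (fun n => ζ ^ n)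

/-- R12: the return times theorem for bounded functions over an ergodic system -/
def T_RT : Prop := ∀ (Ω : Type v) [MeasurableSpace Ω] (m : Measure Ω) [IsProbabilityMeasure m]
  (S : Ω ≃ᵐ Ω), Ergodic S m → ∀ H : Ω → ℂ, Measurable H → (∀ ω, ‖H ω‖ ≤ 1) →
    ∀ᵐ ω ∂m, LGood.{u} (fun n => H (S^[n] ω))

end Pool.Agent.H94.RTB
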