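import Pool.Agent.H94.RTB.Targets2

/-!
# Return times for linear averages: the two forms which part M uses
-/

namespace Pool.Agent.H94.RTB

open MeasureTheory Filter Topology Finset
open scoped ComplexConjugate NNReal

universe u v

/-- R14: the return times theorem, scaled -/
def T_RTT : Prop := ∀ (Ω : Type v) [MeasurableSpace Ω] (m : Measure Ω) [IsProbabilityMeasure m]
  (S : Ω ≃ᵐ Ω), Ergodic S m → ∀ H : Ω → ℂ, Measurable H → (∃ C : ℝ, ∀ ω, ‖H ω‖ ≤ C) →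
    ∀ᵐ ω ∂m, ∀ (X : Type u) [MeasurableSpace X] (μ : Measure X) [IsProbabilityMeasure μ]
      (T : X ≃ᵐ X), MeasurePreserving T μ μ → ∀ F : X → ℂ, Measurable F →
        (∃ C : ℝ, ∀ x, ‖F x‖ ≤ C) → ∀ᵐ x ∂μ, ∃ l : ℂ,
          Tendsto (fun N : ℕ => (∑ n ∈ Finset.Icc 1 N, H (S^[n] ω) * F (T^[n] x)) / N) atTop (𝓝 l)

/-- R15: removing one atom of the spectral measure by subtracting a bounded eigenfunction -/
def T_ATM : Prop := ∀ (Ω : Type v) [MeasurableSpace Ω] (m : Measure Ω) [IsProbabilityMeasure m]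
  (S : Ω ≃ᵐ Ω), MeasurePreserving S m m → ∀ (H : Ω → ℂ) (C : ℝ), Measurable H →
    (∀ ω, ‖H ω‖ ≤ C) → ∀ (θ : UnitAddCircle) (ν : Measure UnitAddCircle) [IsFiniteMeasure ν],
      (∀ n : ℕ, gam m S H n = ∫ x, fourier (n : ℤ) x ∂ν) →
        ∃ φ : Ω → ℂ, Measurable φ ∧ (∀ ω, ‖φ ω‖ ≤ C) ∧
          (∀ᵐ ω ∂m, φ (S ω) = fourier 1 θ * φ ω) ∧
          ∀ n : ℕ, gam m S (fun ω => H ω - φ ω) n = ∫ x, fourier (n : ℤ) x ∂(ν.restrict {θ}ᶜ)

end Pool.Agent.H94.RTB
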