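import Pool.Agent.H94.RTB.Tools
import Pool.Agent.H14.RTB.PAIR

/-!
Row R_CORE of ssp_modules: small self-correlations of the weight give small maximal averages in
every system. The adjoints of the linearised maximal operators at widely separated scales are
nearly orthogonal.
-/

set_option autoImplicit false

namespace Pool.Agent.H94.RTB.CORE

open Pool.Agent.H94.RTB Pool.Agent.H14.RTB MeasureTheory Filter Topology Finset
open scoped ComplexConjugate NNReal

universe u

section basic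

variable {X : Type u} [MeasurableSpace X] {μ : Measure X} [IsProbabilityMeasure μ]

theorem int_of_bd {f : X → ℂ} (hf : Measurable f) {D : ℝ} (hD : ∀ x, ‖f x‖ ≤ D) :
    Integrable f μ :=
  Integrable.of_bound hf.aestronglyMeasurable D (Eventually.of_forall hD)

/-- the square norm of a finite sum -/
theorem sq_sum_le (v : ℕ → X → ℂ) (D : ℕ → ℝ) (hv : ∀ j, Measurable (v j))
    (hD : ∀ j x, ‖v j x‖ ≤ D j) (R : ℕ) :
    ∫ x, ‖∑ j ∈ range R, v j x‖ ^ 2 ∂μ ≤
      ∑ i ∈ range R, ∑ j ∈ range R, ‖∫ x, v i x * conj (v j x) ∂μ‖ := by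
  have hi : ∀ i j, Integrable (fun x => v i x * conj (v j x)) μ := fun i j => by
    refine int_of_bd ((hv i).mul (Complex.continuous_conj.measurable.comp (hv j)))
      (D := D i * D j) fun x => ?_
    rw [norm_mul, RCLike.norm_conj]
    exact mul_le_mul (hD i x) (hD j x) (norm_nonneg _) ((norm_nonneg _).trans (hD i x))
  have e1 : ((∫ x, ‖∑ j ∈ range R, v j x‖ ^ 2 ∂μ : ℝ) : ℂ) =
      ∑ i ∈ range R, ∑ j ∈ range R, ∫ x, v i x * conj (v j x) ∂μ := by
    rw [← integral_complex_ofReal]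
    have e2 : ∀ x, ((‖∑ j ∈ range R, v j x‖ ^ 2 : ℝ) : ℂ) =
        ∑ i ∈ range R, ∑ j ∈ range R, v i x * conj (v j x) := by
      intro x
      rw [← Finset.sum_mul_sum, ← map_sum, Complex.mul_conj, Complex.normSq_eq_norm_sq]
    simp_rw [e2]
    rw [integral_finsetSum _ fun i _ => integrable_finsetSum _ fun j _ => hi i j]
    refine Finset.sum_congr rfl fun i _ => ?_
    rw [integral_finsetSum _ fun j _ => hi i j]
  have h0 : 0 ≤ ∫ x, ‖∑ j ∈ range R, v j x‖ ^ 2 ∂μ := integral_nonneg fun x => sq_nonneg _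
  calc ∫ x, ‖∑ j ∈ range R, v j x‖ ^ 2 ∂μ
      = ‖((∫ x, ‖∑ j ∈ range R, v j x‖ ^ 2 ∂μ : ℝ) : ℂ)‖ := by
        rw [Complex.norm_real, Real.norm_eq_abs, abs_of_nonneg h0]
    _ = ‖∑ i ∈ range R, ∑ j ∈ range R, ∫ x, v i x * conj (v j x) ∂μ‖ := by rw [e1]
    _ ≤ ∑ i ∈ range R, ∑ j ∈ range R, ‖∫ x, v i x * conj (v j x) ∂μ‖ :=
        (norm_sum_le _ _).trans (Finset.sum_le_sum fun i _ => norm_sum_le _ _)

/-- Cauchy-Schwarz against a function bounded by one -/
theorem pair_sq_le {V F : X → ℂ} (hV : Measurable V) {D : ℝ} (hD : ∀ x, ‖V x‖ ≤ D)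
    (hF1 : ∀ x, ‖F x‖ ≤ 1) :
    ‖∫ x, V x * F x ∂μ‖ ^ 2 ≤ ∫ x, ‖V x‖ ^ 2 ∂μ := by
  have h1 : ‖∫ x, V x * F x ∂μ‖ ≤ ∫ x, ‖V x‖ ∂μ := by
    refine (norm_integral_le_integral_norm _).trans ?_
    refine integral_mono_of_nonneg (Eventually.of_forall fun x => norm_nonneg _)
      (int_of_bd hV hD).norm (Eventually.of_forall fun x => ?_)
    show ‖V x * F x‖ ≤ ‖V x‖
    rw [norm_mul]
    exact mul_le_of_le_one_right (norm_nonneg _) (hF1 x)
  have hi2 : Integrable (fun x => ‖V x‖ ^ 2) μ := by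
    refine Integrable.of_bound (hV.norm.pow_const 2).aestronglyMeasurable (D ^ 2)
      (Eventually.of_forall fun x => ?_)
    rw [Real.norm_eq_abs, abs_of_nonneg (sq_nonneg _)]
    exact pow_le_pow_left₀ (norm_nonneg _) (hD x) 2
  -- the variance is nonnegative
  set I : ℝ := ∫ x, ‖V x‖ ∂μ with hI
  have h2 : 0 ≤ ∫ x, (‖V x‖ - I) ^ 2 ∂μ := integral_nonneg fun x => sq_nonneg _
  have h3 : ∫ x, (‖V x‖ - I) ^ 2 ∂μ = ∫ x, ‖V x‖ ^ 2 ∂μ - I ^ 2 := by
    have e : ∀ x, (‖V x‖ - I) ^ 2 = ‖V x‖ ^ 2 - (2 * I * ‖V x‖ - I ^ 2) := fun x => by ring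
    simp_rw [e]
    have i1 : Integrable (fun x => 2 * I * ‖V x‖) μ := (int_of_bd hV hD).norm.const_mul _
    have i2 : Integrable (fun x => 2 * I * ‖V x‖ - I ^ 2) μ := i1.sub (integrable_const _)
    rw [integral_sub hi2 i2, integral_sub i1 (integrable_const _), integral_const_mul]
    simp only [integral_const, probReal_univ, smul_eq_mul, one_mul]
    rw [← hI]
    ring
  have h4 : I ^ 2 ≤ ∫ x, ‖V x‖ ^ 2 ∂μ := by linarith
  exact (pow_le_pow_left₀ (norm_nonneg _) h1 2).trans h4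

end basic

/-- a level: a window, a stopping time in the window and a coefficient for which the pairing with
`F` is at least `b` -/
structure Lev {X : Type u} [MeasurableSpace X] (μ : Measure X) (T : X ≃ᵐ X) (F : X → ℂ)
    (w : ℕ → ℂ) (b : ℝ) where
  M : ℕ
  L : ℕ
  N : X → ℕ
  a : X → ℂ
  one : 1 ≤ M
  ML : M ≤ L
  hN : Measurable N
  NM : ∀ x, M ≤ N x ∧ N x ≤ L
  ha : Measurable a
  a1 : ∀ x, ‖a x‖ ≤ 1
  big : b ≤ (∫ x, CC T w L N a x * F x ∂μ).re

theorem exists_lev (h1 : T_SEL.{u}) (h2 : T_PAIR.{u}) {X : Type u} [MeasurableSpace X]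
    (μ : Measure X) [IsProbabilityMeasure μ] (T : X ≃ᵐ X) (hT : MeasurePreserving T μ μ)
    {F : X → ℂ} (hF : Measurable F) (hF1 : ∀ x, ‖F x‖ ≤ 1) (w : ℕ → ℂ) {b : ℝ} (hb : 0 < b)
    (h : ∀ M : ℕ, ∃ L : ℕ, b < ∫ x, mx T F w M L x ∂μ) (K : ℕ) :
    ∃ l : Lev μ T F w b, K ≤ l.M := by
  obtain ⟨L, hL⟩ := h (max K 1)
  have hML : max K 1 ≤ L := by
    by_contra hlt
    push Not at hlt
    have : ∀ x, mx T F w (max K 1) L x = 0 := by
      intro x
      unfold mx
      rw [Finset.Icc_eq_empty (by omega)]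
      simp
    simp only [this, integral_zero] at hL
    linarith
  obtain ⟨N, hN, hNM, a, ha, ha1, hmx⟩ := h1 X T F w (max K 1) L hF hML
  refine ⟨⟨max K 1, L, N, a, le_max_right _ _, hML, hN, hNM, ha, ha1, ?_⟩, le_max_left _ _⟩
  rw [h2 X μ T hT w L N a F 1 hN (fun x => ⟨(le_max_right _ _).trans (hNM x).1, (hNM x).2⟩) ha ha1
    hF hF1]
  have e : ∫ x, a x * Av T F w (N x) x ∂μ = ((∫ x, mx T F w (max K 1) L x ∂μ : ℝ) : ℂ) := by
    rw [← integral_complex_ofReal]
    exact integral_congr_ae (Eventually.of_forall fun x => hmx x)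
  rw [e, Complex.ofReal_re]
  exact hL.le

theorem pf_CORE (h1 : T_SEL.{u}) (h2 : T_PAIR.{u}) (h3 : T_L2.{u}) (h4 : T_ORT.{u}) :
    T_CORE.{u} := by
  intro w C κ hw hκ hZ X _ μ _ T hT F hF hF1 ε hε
  by_contra hcon
  push Not at hcon
  have hC : 0 ≤ C := (norm_nonneg _).trans (hw 0)
  set b : ℝ := √κ + ε with hbdef
  have hb0 : 0 < b := by
    have := Real.sqrt_nonneg κ
    linarith
  have hb2 : κ < b ^ 2 := by
    have hs := Real.sq_sqrt hκ
    have hs0 := Real.sqrt_nonneg κ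
    nlinarith
  set γ : ℝ := b ^ 2 - κ with hγ
  have hγ0 : 0 < γ := by linarith
  set e : ℝ := γ / (2 * (1 + 2 * C ^ 2)) with he
  have he0 : 0 < e := by positivity
  obtain ⟨M₀, hM₀⟩ := hZ e he0
  -- what the next level has to satisfy
  have hnext : ∀ l : Lev μ T F w b, M₀ ≤ l.M → ∃ K : ℕ, l.L ≤ K ∧ (l.L : ℝ) ≤ e * K ∧
      ∀ K' : ℕ, K ≤ K' → (∑ p ∈ range K', mcor w (fun r => w (r + p)) l.M l.L) ≤
        (κ + e) * K' := by
    intro l hl
    obtain ⟨Q₀, hQ₀⟩ := eventually_atTop.1 (hM₀ l.L)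
    obtain ⟨K₁, hK₁⟩ := exists_nat_ge ((l.L : ℝ) / e)
    refine ⟨max (max l.L 1) (max Q₀ K₁), (le_max_left _ _).trans (le_max_left _ _), ?_, ?_⟩
    · have h5 : (K₁ : ℝ) ≤ ((max (max l.L 1) (max Q₀ K₁) : ℕ) : ℝ) := by
        exact_mod_cast (le_max_right _ _).trans (le_max_right _ _)
      have h6 := hK₁.trans h5
      rw [div_le_iff₀ he0] at h6
      linarith
    · intro K' hK'
      have h5 : Q₀ ≤ K' := ((le_max_left _ _).trans (le_max_right _ _)).trans hK'
      have h6 : 1 ≤ K' := ((le_max_right _ _).trans (le_max_left _ _)).trans hK'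
      have h7 := hQ₀ K' h5
      have hK0 : (0 : ℝ) < K' := by exact_mod_cast h6
      rw [div_le_iff₀ hK0] at h7
      refine le_trans (Finset.sum_le_sum fun p _ => ?_) h7
      unfold mcor
      have : Icc l.M l.L ⊆ Icc M₀ l.L := Finset.Icc_subset_Icc_left hl
      exact_mod_cast Finset.sup_mono this
  choose! nx hnx1 hnx2 hnx3 using hnext
  obtain ⟨l₀, hl₀⟩ := exists_lev h1 h2 μ T hT hF hF1 w hb0 (fun M => hcon M) M₀
  choose g hg using fun K : ℕ => exists_lev h1 h2 μ T hT hF hF1 w hb0 (fun M => hcon M) K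
  set lev : ℕ → Lev μ T F w b := fun n => Nat.rec l₀ (fun _ l => g (max M₀ (nx l))) n with hlev
  have hlev0 : lev 0 = l₀ := rfl
  have hlevs : ∀ n, lev (n + 1) = g (max M₀ (nx (lev n))) := fun n => rfl
  have hM₀le : ∀ n, M₀ ≤ (lev n).M := by
    intro n
    cases n with
    | zero => exact hl₀
    | succ n => rw [hlevs]; exact (le_max_left _ _).trans (hg _)
  have hstep : ∀ n, nx (lev n) ≤ (lev (n + 1)).M := by
    intro n
    rw [hlevs]
    exact (le_max_right _ _).trans (hg _)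
  have hmono : ∀ i j, i < j → nx (lev i) ≤ (lev j).M := by
    intro i j hij
    obtain ⟨d, rfl⟩ := Nat.exists_eq_add_of_lt hij
    clear hij
    induction d with
    | zero => exact hstep i
    | succ d ih =>
      refine ih.trans ?_
      refine ((lev (i + d + 1)).ML).trans ?_
      exact (hnx1 _ (hM₀le (i + d + 1))).trans (hstep (i + d + 1))
  set v : ℕ → X → ℂ := fun j x => CC T w (lev j).L (lev j).N (lev j).a x with hv
  have hN1 : ∀ j x, 1 ≤ (lev j).N x ∧ (lev j).N x ≤ (lev j).L := fun j x =>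
    ⟨(lev j).one.trans ((lev j).NM x).1, ((lev j).NM x).2⟩
  have hvm : ∀ j, Measurable (v j) := fun j => measurable_CC T w (lev j).L (lev j).hN (lev j).ha
  have hvb : ∀ j x, ‖v j x‖ ≤ C * (lev j).L := fun j x =>
    norm_CC_le T w (lev j).L hw (fun x => (hN1 j x).1) (lev j).a1 x
  -- the near orthogonality
  have hoff : ∀ i j, i < j → ‖∫ x, v i x * conj (v j x) ∂μ‖ ≤ κ + e + 2 * C ^ 2 * e := by
    intro i j hij
    have h5 := hmono i j hij
    have h6 := h4 X μ T hT w C (κ + e) (lev i).M (lev i).L (lev j).M (lev j).L (lev i).N (lev j).N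
      (lev i).a (lev j).a hw (by linarith) (lev i).one (lev i).ML
      ((hnx1 _ (hM₀le i)).trans h5) (lev j).ML (lev i).hN (lev i).NM (lev i).ha (lev i).a1
      (lev j).hN (lev j).NM (lev j).ha (lev j).a1
      (fun K' hK' => hnx3 _ (hM₀le i) K' (h5.trans hK'))
    refine h6.trans ?_
    have hMj : (0 : ℝ) < (lev j).M := by exact_mod_cast (lev j).one
    have h7 : ((lev i).L : ℝ) ≤ e * (lev j).M := by
      refine (hnx2 _ (hM₀le i)).trans ?_
      refine mul_le_mul_of_nonneg_left ?_ he0.le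
      exact_mod_cast h5
    have h8 : 2 * C ^ 2 * (lev i).L / (lev j).M ≤ 2 * C ^ 2 * e := by
      rw [div_le_iff₀ hMj]
      nlinarith [sq_nonneg C]
    linarith
  have hall : ∀ i j, i ≠ j → ‖∫ x, v i x * conj (v j x) ∂μ‖ ≤ κ + e + 2 * C ^ 2 * e := by
    intro i j hij
    rcases lt_or_gt_of_ne hij with h | h
    · exact hoff i j h
    · have e1 : ∫ x, v i x * conj (v j x) ∂μ = conj (∫ x, v j x * conj (v i x) ∂μ) := by
        rw [← integral_conj]
        refine integral_congr_ae (Eventually.of_forall fun x => ?_)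
        show v i x * conj (v j x) = conj (v j x * conj (v i x))
        rw [map_mul, Complex.conj_conj]
        ring
      rw [e1, RCLike.norm_conj]
      exact hoff j i h
  have hdiag : ∀ i, ‖∫ x, v i x * conj (v i x) ∂μ‖ ≤ 4 * C ^ 2 := by
    intro i
    have e1 : ∫ x, v i x * conj (v i x) ∂μ = ((∫ x, ‖v i x‖ ^ 2 ∂μ : ℝ) : ℂ) := by
      rw [← integral_complex_ofReal]
      refine integral_congr_ae (Eventually.of_forall fun x => ?_)
      show v i x * conj (v i x) = ((‖v i x‖ ^ 2 : ℝ) : ℂ)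
      rw [Complex.mul_conj, Complex.normSq_eq_norm_sq]
    rw [e1, Complex.norm_real, Real.norm_eq_abs, abs_of_nonneg (integral_nonneg fun x => sq_nonneg _)]
    exact h3 X μ T hT w C (lev i).L (lev i).N (lev i).a hw (lev i).hN (hN1 i) (lev i).ha (lev i).a1
  have hmain : ∀ R : ℕ, ((R : ℝ) * b) ^ 2 ≤ R * (4 * C ^ 2) + R * R * (κ + e + 2 * C ^ 2 * e) := by
    intro R
    set V : X → ℂ := fun x => ∑ j ∈ range R, v j x with hV
    have hVm : Measurable V := Finset.measurable_sum _ fun j _ => hvm j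
    have hVb : ∀ x, ‖V x‖ ≤ ∑ j ∈ range R, C * (lev j).L := fun x =>
      (norm_sum_le _ _).trans (Finset.sum_le_sum fun j _ => hvb j x)
    have h5 := pair_sq_le (μ := μ) hVm hVb hF1
    have h6 := sq_sum_le (μ := μ) v (fun j => C * (lev j).L) hvm hvb R
    have h7 : (R : ℝ) * b ≤ ‖∫ x, V x * F x ∂μ‖ := by
      have e1 : ∫ x, V x * F x ∂μ = ∑ j ∈ range R, ∫ x, v j x * F x ∂μ := by
        rw [← integral_finsetSum]
        · refine integral_congr_ae (Eventually.of_forall fun x => ?_)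
          show (∑ j ∈ range R, v j x) * F x = ∑ j ∈ range R, v j x * F x
          rw [Finset.sum_mul]
        · intro j _
          refine int_of_bd ((hvm j).mul hF) (D := C * (lev j).L) fun x => ?_
          rw [norm_mul]
          exact (mul_le_of_le_one_right (norm_nonneg _) (hF1 x)).trans (hvb j x)
      have h8 : (R : ℝ) * b ≤ (∫ x, V x * F x ∂μ).re := by
        rw [e1, Complex.re_sum]
        have h9 : ∑ _j ∈ range R, b ≤ ∑ j ∈ range R, (∫ x, v j x * F x ∂μ).re :=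
          Finset.sum_le_sum fun j _ => (lev j).big
        simpa using h9
      exact h8.trans (Complex.re_le_norm _)
    have h8 : ∑ i ∈ range R, ∑ j ∈ range R, ‖∫ x, v i x * conj (v j x) ∂μ‖ ≤
        R * (4 * C ^ 2) + R * R * (κ + e + 2 * C ^ 2 * e) := by
      have h9 : ∀ i ∈ range R, ∑ j ∈ range R, ‖∫ x, v i x * conj (v j x) ∂μ‖ ≤
          4 * C ^ 2 + R * (κ + e + 2 * C ^ 2 * e) := by
        intro i hi
        rw [← Finset.add_sum_erase _ _ hi]
        refine add_le_add (hdiag i) ?_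
        refine (Finset.sum_le_sum fun j hj => hall i j (Finset.ne_of_mem_erase hj).symm).trans ?_
        rw [Finset.sum_const, nsmul_eq_mul]
        refine mul_le_mul_of_nonneg_right ?_ (by positivity)
        have : ((range R).erase i).card ≤ R := by
          refine (Finset.card_le_card (Finset.erase_subset _ _)).trans ?_
          simp
        exact_mod_cast this
      refine (Finset.sum_le_sum h9).trans ?_
      rw [Finset.sum_const, card_range, nsmul_eq_mul]
      nlinarith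
    have h10 : ((R : ℝ) * b) ^ 2 ≤ ‖∫ x, V x * F x ∂μ‖ ^ 2 :=
      pow_le_pow_left₀ (by positivity) h7 2
    linarith
  have hE : κ + e + 2 * C ^ 2 * e = κ + γ / 2 := by
    have : e * (2 * (1 + 2 * C ^ 2)) = γ := by
      rw [he]
      field_simp
    nlinarith
  obtain ⟨R, hR⟩ := exists_nat_gt (8 * C ^ 2 / γ)
  have hR0 : (0 : ℝ) < R := lt_of_le_of_lt (by positivity) hR
  rw [div_lt_iff₀ hγ0] at hR
  have h5 := hmain R
  rw [hE] at h5
  have h6 : (R : ℝ) * b ^ 2 ≤ 4 * C ^ 2 + R * (κ + γ / 2) := by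
    have h7 : (R : ℝ) * (R * b ^ 2) ≤ R * (4 * C ^ 2 + R * (κ + γ / 2)) := by nlinarith
    exact le_of_mul_le_mul_left h7 hR0
  have h8 : b ^ 2 = κ + γ := by rw [hγ]; ring
  rw [h8] at h6
  nlinarith

end Pool.Agent.H94.RTB.CORE
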