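import Mathlib

/-!
# Return times for linear averages: definitions

Part R of the board on return times for double recurrence: the return times theorem of Bourgain,
Furstenberg, Katznelson and Ornstein for bounded functions over an ergodic system.
-/

namespace Pool.Agent.H94.RTB

open MeasureTheory Filter Topology Finset
open scoped ComplexConjugate NNReal

universe u v

/-- the weighted average `(1/N) ∑_{n=1}^N w(n) F(T^n x)` -/
noncomputable def Av {X : Type u} (T : X → X) (F : X → ℂ) (w : ℕ → ℂ) (N : ℕ) (x : X) : ℂ :=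
  (∑ n ∈ Icc 1 N, w n * F (T^[n] x)) / N

/-- the weight `w` is good for linear averages: for every invertible measure preserving system
and every bounded measurable `F` the averages converge almost everywhere -/
def LGood (w : ℕ → ℂ) : Prop :=
  ∀ (X : Type u) [MeasurableSpace X] (μ : Measure X) [IsProbabilityMeasure μ] (T : X ≃ᵐ X),
    MeasurePreserving T μ μ → ∀ F : X → ℂ, Measurable F → (∀ x, ‖F x‖ ≤ 1) →
      ∀ᵐ x ∂μ, ∃ l : ℂ, Tendsto (fun N => Av T F w N x) atTop (𝓝 l)

/-- the largest absolute value of the averages with `M ≤ N ≤ L` (`0` if there are none) -/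
noncomputable def mx {X : Type u} (T : X → X) (F : X → ℂ) (w : ℕ → ℂ) (M L : ℕ) (x : X) : ℝ :=
  (((Icc M L).sup fun N => ‖Av T F w N x‖₊ : ℝ≥0) : ℝ)

/-- the correlation `(1/n) ∑_{r=1}^n a(r) conj b(r)` -/
noncomputable def cor (a b : ℕ → ℂ) (n : ℕ) : ℂ :=
  (∑ r ∈ Icc 1 n, a r * conj (b r)) / n

/-- the largest correlation over the window `M ≤ n ≤ L` -/
noncomputable def mcor (a b : ℕ → ℂ) (M L : ℕ) : ℝ :=
  (((Icc M L).sup fun n => ‖cor a b n‖₊ : ℝ≥0) : ℝ)

/-- the self-correlations of `w` of length at least `M` are at most `κ + ε` in the mean over the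
shift `p` -/
def Zk (κ : ℝ) (w : ℕ → ℂ) : Prop :=
  ∀ ε > (0 : ℝ), ∃ M : ℕ, ∀ L : ℕ, ∀ᶠ Q : ℕ in atTop,
    (∑ p ∈ range Q, mcor w (fun r => w (r + p)) M L) / Q ≤ κ + ε

/-- the adjoint of the linearised maximal operator: `N` is the stopping time, `a` a bounded
coefficient -/
noncomputable def CC {X : Type u} [MeasurableSpace X] (T : X ≃ᵐ X) (w : ℕ → ℂ) (L : ℕ)
    (N : X → ℕ) (a : X → ℂ) (x : X) : ℂ :=
  ∑ r ∈ Icc 1 L, if r ≤ N (T.symm^[r] x) then
    a (T.symm^[r] x) * w r / (N (T.symm^[r] x) : ℂ) else 0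

/-- correlation of `H` along `S` at distance `d` -/
noncomputable def gam {Ω : Type v} [MeasurableSpace Ω] (m : Measure Ω) (S : Ω → Ω) (H : Ω → ℂ)
    (d : ℕ) : ℂ :=
  ∫ ω, H (S^[d] ω) * conj (H ω) ∂m

end Pool.Agent.H94.RTB
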