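import Pool.Agent.H94.RTB.RT
import Pool.Agent.H94.RTB.RTT
import Pool.Agent.H94.RTB.HER
import Pool.Agent.H94.RTB.WIE
import Pool.Agent.H94.RTB.MEG
import Pool.Agent.H94.RTB.ATM
import Pool.Agent.H94.RTB.PRD
import Pool.Agent.H94.RTB.CORE
import Pool.Agent.H17.RTB.EIG
import Pool.Agent.H43.RTB.R_L2
import Pool.Agent.H44.RTB.ORT
import Pool.Agent.H35.RTB.ZG
import Pool.Agent.H35.RTB.DEC
import Pool.Agent.H14.RTB.PAIR

/-!
Part R of ssp_modules, without hypotheses: the return times theorem of Bourgain, Furstenberg,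
Katznelson and Ornstein for bounded functions, the theorem of Herglotz and the removal of atoms.
-/

set_option autoImplicit false

namespace Pool.Agent.H94.RTB

universe u v

theorem f_HER : T_HER := HG.pf_HER

theorem f_EIG : T_EIG.{u} := Pool.Agent.H17.RTB.pf_EIG

theorem f_MEG : T_MEG.{v} := MEG.pf_MEG f_EIG

theorem f_DEC : T_DEC.{v} := Pool.Agent.H35.RTB.pf_DEC f_HER WIE.pf_WIE f_MEG

theorem f_ATM : T_ATM.{v} := ATM.pf_ATM f_MEG

theorem f_ZG : T_ZG.{v} := Pool.Agent.H35.RTB.ZG.pf_ZG PRD.pf_PRD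

theorem f_CORE : T_CORE.{u} :=
  CORE.pf_CORE Pool.Agent.H14.RTB.pf_SEL Pool.Agent.H14.RTB.pf_PAIR Pool.Agent.H43.RTB.pf_L2
    (Pool.Agent.H44.RTB.pf_ORT Pool.Agent.H14.RTB.pf_PAIR)

theorem f_RT : T_RT.{u, v} := pf_RT f_CORE f_ZG f_DEC f_EIG

theorem f_RTT : T_RTT.{u, v} := pf_RTT f_RT

end Pool.Agent.H94.RTB
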