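import Pool.Agent.H94.RTB.Targets

/-!
# Return times for linear averages: one more target of part R
-/

namespace Pool.Agent.H94.RTB

open MeasureTheory Filter Topology Finset
open scoped ComplexConjugate NNReal

universe v

/-- R13: the mean ergodic theorem twisted by a character, with a bounded limit function -/
def T_MEG : Prop := ∀ (Ω : Type v) [MeasurableSpace Ω] (m : Measure Ω) [IsProbabilityMeasure m]
  (S : Ω ≃ᵐ Ω), MeasurePreserving S m m → ∀ H : Ω → ℂ, Measurable H → (∀ ω, ‖H ω‖ ≤ 1) →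
    ∀ ζ : ℂ, ‖ζ‖ = 1 → ∃ φ : Ω → ℂ, Measurable φ ∧ (∀ ω, ‖φ ω‖ ≤ 1) ∧
      (∀ᵐ ω ∂m, φ (S ω) = ζ * φ ω) ∧
      Tendsto (fun N : ℕ => ∫ ω, ‖Av S H (fun n => (conj ζ) ^ n) N ω - φ ω‖ ^ 2 ∂m) atTop (𝓝 0)

end Pool.Agent.H94.RTB
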