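import Pool.Agent.H94.RTB.Targets3

/-!
Tools for part R of ssp_modules: measurability and bounds of the averages and of their maximum.
-/

set_option autoImplicit false

namespace Pool.Agent.H94.RTB

open MeasureTheory Filter Topology Finset
open scoped ComplexConjugate NNReal ENNReal

universe u

theorem iter_meas {X : Type u} [MeasurableSpace X] {T : X → X} (hT : Measurable T) (n : ℕ) :
    Measurable (T^[n]) := hT.iterate n

theorem Av_meas {X : Type u} [MeasurableSpace X] {T : X → X} (hT : Measurable T) {F : X → ℂ}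
    (hF : Measurable F) (w : ℕ → ℂ) (N : ℕ) : Measurable (fun x => Av T F w N x) := by
  unfold Av
  refine Measurable.div_const ?_ _
  exact Finset.measurable_sum _ fun n _ => (hF.comp (iter_meas hT n)).const_mul _

theorem Av_norm_le {X : Type u} {T : X → X} {F : X → ℂ} {B : ℝ} (hF : ∀ x, ‖F x‖ ≤ B)
    {w : ℕ → ℂ} {C : ℝ} (hw : ∀ n, ‖w n‖ ≤ C) (N : ℕ) (x : X) :
    ‖Av T F w N x‖ ≤ C * B := by
  have hC : 0 ≤ C := (norm_nonneg _).trans (hw 0)
  have hB : 0 ≤ B := (norm_nonneg _).trans (hF x)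
  unfold Av
  rw [norm_div, Complex.norm_natCast]
  rcases Nat.eq_zero_or_pos N with h0 | h0
  · rw [h0]; simp; positivity
  · have hN : (0 : ℝ) < N := by exact_mod_cast h0
    rw [div_le_iff₀ hN]
    refine (norm_sum_le _ _).trans ?_
    refine (Finset.sum_le_sum fun n _ => ?_).trans (b := ∑ _n ∈ Icc 1 N, C * B) ?_
    · rw [norm_mul]
      exact mul_le_mul (hw n) (hF _) (norm_nonneg _) hC
    · simp [mul_comm]

theorem mx_meas {X : Type u} [MeasurableSpace X] {T : X → X} (hT : Measurable T) {F : X → ℂ}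
    (hF : Measurable F) (w : ℕ → ℂ) (M L : ℕ) : Measurable (fun x => mx T F w M L x) := by
  unfold mx
  refine measurable_coe_nnreal_real.comp ?_
  have h : Measurable (fun x => (Icc M L).sup fun N => ‖Av T F w N x‖₊) := by
    have h2 : (fun x => (Icc M L).sup fun N => ‖Av T F w N x‖₊) =
        ((Icc M L).sup fun N => fun x => ‖Av T F w N x‖₊) := by
      ext x
      rw [Finset.sup_apply]
    rw [h2]
    refine Finset.sup_induction (p := fun f : X → ℝ≥0 => Measurable f) measurable_const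
      (fun a ha b hb => ha.sup hb) fun N _ => (Av_meas hT hF w N).nnnorm
  exact h

theorem mx_nonneg {X : Type u} (T : X → X) (F : X → ℂ) (w : ℕ → ℂ) (M L : ℕ) (x : X) :
    0 ≤ mx T F w M L x := NNReal.coe_nonneg _

theorem le_mx {X : Type u} (T : X → X) (F : X → ℂ) (w : ℕ → ℂ) {M L N : ℕ} (h1 : M ≤ N)
    (h2 : N ≤ L) (x : X) : ‖Av T F w N x‖ ≤ mx T F w M L x := by
  unfold mx
  have h : ‖Av T F w N x‖₊ ≤ (Icc M L).sup fun N => ‖Av T F w N x‖₊ :=
    Finset.le_sup (f := fun N => ‖Av T F w N x‖₊) (mem_Icc.2 ⟨h1, h2⟩)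
  exact_mod_cast h

theorem mx_le {X : Type u} (T : X → X) (F : X → ℂ) (w : ℕ → ℂ) (M L : ℕ) (x : X) {b : ℝ}
    (hb : 0 ≤ b) (h : ∀ N, M ≤ N → N ≤ L → ‖Av T F w N x‖ ≤ b) : mx T F w M L x ≤ b := by
  unfold mx
  have h : ((Icc M L).sup fun N => ‖Av T F w N x‖₊) ≤ (⟨b, hb⟩ : ℝ≥0) := by
    refine Finset.sup_le fun N hN => ?_
    rw [mem_Icc] at hN
    exact_mod_cast h N hN.1 hN.2
  exact_mod_cast h

theorem mx_mono {X : Type u} (T : X → X) (F : X → ℂ) (w : ℕ → ℂ) (M : ℕ) (x : X) :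
    Monotone fun L => mx T F w M L x := by
  intro L L' hL
  refine mx_le T F w M L x (mx_nonneg T F w M L' x) fun N h1 h2 => le_mx T F w h1 (h2.trans hL) x

theorem mx_bdd {X : Type u} {T : X → X} {F : X → ℂ} {B : ℝ} (hF : ∀ x, ‖F x‖ ≤ B)
    {w : ℕ → ℂ} {C : ℝ} (hw : ∀ n, ‖w n‖ ≤ C) (M L : ℕ) (x : X) :
    mx T F w M L x ≤ C * B :=
  mx_le T F w M L x (mul_nonneg ((norm_nonneg _).trans (hw 0)) ((norm_nonneg _).trans (hF x)))
    fun N _ _ => Av_norm_le hF hw N x

theorem mx_int {X : Type u} [MeasurableSpace X] {μ : Measure X} [IsFiniteMeasure μ] {T : X → X}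
    (hT : Measurable T) {F : X → ℂ} (hFm : Measurable F) {B : ℝ} (hF : ∀ x, ‖F x‖ ≤ B)
    {w : ℕ → ℂ} {C : ℝ} (hw : ∀ n, ‖w n‖ ≤ C) (M L : ℕ) :
    Integrable (fun x => mx T F w M L x) μ := by
  refine Integrable.of_bound (mx_meas hT hFm w M L).aestronglyMeasurable (C * B) ?_
  refine Eventually.of_forall fun x => ?_
  rw [Real.norm_eq_abs, abs_of_nonneg (mx_nonneg T F w M L x)]
  exact mx_bdd hF hw M L x

theorem Av_add {X : Type u} (T : X → X) (F : X → ℂ) (w z : ℕ → ℂ) (N : ℕ) (x : X) :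
    Av T F (fun n => w n + z n) N x = Av T F w N x + Av T F z N x := by
  unfold Av
  rw [← add_div, ← Finset.sum_add_distrib]
  simp only [add_mul]

end Pool.Agent.H94.RTB
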